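import Pool.Agent.Lib.MP_7d48f8_nt.P.Defs

/-! The coefficients of the bilinear form. -/

noncomputable section

namespace Pool.Agent.Lib.MP_7d48f8_nt

open Finset MeasureTheory Filter Topology

theorem conv_log {x : ℝ} (hx : 1 ≤ x) : 0 < Real.log (2 * x) := Real.log_pos (by linarith)

theorem conv_sum {x : ℝ} (hx : 1 ≤ x) {a : ℕ} (ha : (a : ℝ) ≤ 2 * x) :
    ∑ p ∈ a.primeFactors, sz x p ≤ 1 := by
  rcases eq_or_ne a 0 with rfl | h0
  · simp
  have h1 : ∀ p ∈ a.primeFactors, (0 : ℝ) < p := fun p hp =>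
    Nat.cast_pos.2 (Nat.prime_of_mem_primeFactors hp).pos
  simp only [sz]
  rw [← sum_div, div_le_one (conv_log hx), ← Real.log_prod fun p hp => (h1 p hp).ne']
  refine Real.log_le_log (prod_pos h1) (le_trans ?_ ha)
  rw [← Nat.cast_prod]
  exact Nat.cast_le.2 (Nat.le_of_dvd (Nat.pos_of_ne_zero h0) (Nat.prod_primeFactors_dvd a))

theorem conv_step {x B C : ℝ} (hx : 1 ≤ x) (hB : 0 ≤ B) (hC : 0 ≤ C) {φ : ℝ → ℝ}
    (hφ : ∀ t, 0 < t → |φ t| ≤ B * t) {f : ℕ → ℝ} (hf : ∀ b : ℕ, (b : ℝ) ≤ 2 * x → |f b| ≤ C)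
    {a : ℕ} (ha : (a : ℝ) ≤ 2 * x) :
    |∑ p ∈ a.primeFactors, φ (sz x p) * f (a / p)| ≤ C * B := by
  calc _ ≤ ∑ p ∈ a.primeFactors, C * B * sz x p := by
        refine (abs_sum_le_sum_abs _ _).trans (sum_le_sum fun p hp => ?_)
        have h1 : 0 < sz x p := div_pos (Real.log_pos
          (Nat.one_lt_cast.2 (Nat.prime_of_mem_primeFactors hp).one_lt)) (conv_log hx)
        rw [abs_mul, mul_comm, mul_assoc]
        exact mul_le_mul (hf _ ((Nat.cast_le.2 (Nat.div_le_self a p)).trans ha)) (hφ _ h1)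
          (abs_nonneg _) hC
    _ ≤ C * B := by
        rw [← mul_sum]
        exact mul_le_of_le_one_right (mul_nonneg hC hB) (conv_sum hx ha)

theorem conv_ph {x : ℝ} (hx : 1 ≤ x) {c : Cell} {p : ℕ} (hp : p.Prime) (h : c.ph (sz x p) ≠ 0) :
    (p : ℝ) ≤ (2 * x) ^ c.s := by
  have h1 : sz x p < c.s := by
    by_contra h1
    exact h (if_neg fun h2 => h1 h2.2)
  rw [Real.le_rpow_iff_log_le (Nat.cast_pos.2 hp.pos) (by linarith)]
  exact ((div_lt_iff₀ (conv_log hx)).1 h1).le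

theorem conv_div {f : ℕ → ℝ} {n M : ℕ} (hn : n ≠ 0) (hM : ∀ a, f a ≠ 0 → a ≤ M) :
    ∑ a ∈ n.divisors, f a = ∑ a ∈ Icc 1 M, if a ∣ n then f a else 0 := by
  rw [← sum_filter]
  refine (sum_subset (fun a ha => Nat.mem_divisors.2 ⟨(mem_filter.1 ha).2, hn⟩)
    fun a ha h => by_contra fun h1 => h ?_).symm
  exact mem_filter.2 ⟨mem_Icc.2 ⟨Nat.pos_of_mem_divisors ha, hM a h1⟩, Nat.dvd_of_mem_divisors ha⟩

/-- Induction; the sizes of the prime factors of `a ≤ 2 x` add up to at most `1`. -/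
theorem al_bound {x B : ℝ} (hx : 1 ≤ x) (hB : 0 ≤ B) {Φ : List (ℝ → ℝ)} (hΦ : Wt B Φ) {a : ℕ}
    (ha : (a : ℝ) ≤ 2 * x) : |al x Φ a| ≤ B ^ Φ.length := by
  induction Φ generalizing a with
  | nil =>
    rw [al]
    split_ifs <;> simp
  | cons φ Φ ih =>
    rw [al, List.length_cons, pow_succ]
    exact conv_step hx hB (pow_nonneg hB _) (hΦ φ List.mem_cons_self).1
      (fun _ => ih fun ψ h => hΦ ψ (List.mem_cons_of_mem _ h)) ha

theorem TT_bound {x B : ℝ} (hx : 1 ≤ x) (hB : 0 ≤ B) {Φ : List (ℝ → ℝ)} (hΦ : Wt B Φ) {a : ℕ}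
    (ha : (a : ℝ) ≤ 2 * x) : |TT x Φ a| ≤ B ^ Φ.length := by
  induction Φ generalizing a with
  | nil => simp [TT]
  | cons φ Φ ih =>
    rw [TT, List.length_cons, pow_succ]
    exact conv_step hx hB (pow_nonneg hB _) (hΦ φ List.mem_cons_self).1
      (fun _ => ih fun ψ h => hΦ ψ (List.mem_cons_of_mem _ h)) ha

/-- `c.ph (sz x p) ≠ 0` gives `p < (2 x) ^ c.s`. -/
theorem al_supp {x : ℝ} (hx : 1 ≤ x) (L : List Cell) {a : ℕ} (h : al x (L.map Cell.ph) a ≠ 0) :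
    1 ≤ a ∧ (a : ℝ) ≤ (2 * x) ^ (L.map Cell.s).sum := by
  induction L generalizing a with
  | nil =>
    obtain rfl : a = 1 := by_contra fun h1 => h (if_neg h1)
    simp
  | cons c L ih =>
    obtain ⟨p, hp, h1⟩ := exists_ne_zero_of_sum_ne_zero h
    obtain ⟨h2, h3, h4⟩ := Nat.mem_primeFactors.1 hp
    refine ⟨Nat.pos_of_ne_zero h4, ?_⟩
    rw [List.map_cons, List.sum_cons, Real.rpow_add (by linarith), ← Nat.mul_div_cancel' h3,
      Nat.cast_mul]
    exact mul_le_mul (conv_ph hx h2 (left_ne_zero_of_mul h1)) (ih (right_ne_zero_of_mul h1)).2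
      (Nat.cast_nonneg _) (Real.rpow_nonneg (by linarith) _)

/-- Induction on `Φ`: the pairs `(p, a)` with `p ∣ n`, `a ∣ n / p` correspond to the pairs with
`a' = p a ∣ n`, `p ∣ a'`. -/
theorem TT_append (x : ℝ) (Φ Ψ : List (ℝ → ℝ)) {n : ℕ} (hn : n ≠ 0) :
    TT x (Φ ++ Ψ) n = ∑ a ∈ n.divisors, al x Φ a * TT x Ψ (n / a) := by
  induction Φ generalizing n with
  | nil => simp [al, hn]
  | cons φ Φ ih =>
    simp only [List.cons_append, TT, al, sum_mul]
    rw [sum_comm' (t' := n.primeFactors) (s' := fun p => n.divisors.filter (p ∣ ·)) fun a p => ?_]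
    · refine sum_congr rfl fun p hp => ?_
      obtain ⟨h1, ⟨m, rfl⟩, -⟩ := Nat.mem_primeFactors.1 hp
      have hm := right_ne_zero_of_mul hn
      rw [Nat.mul_div_cancel_left _ h1.pos, ih hm, mul_sum]
      refine sum_nbij' (p * ·) (· / p) (fun a ha => ?_) (fun a ha => ?_)
        (fun a _ => Nat.mul_div_cancel_left _ h1.pos)
        (fun a ha => Nat.mul_div_cancel' (mem_filter.1 ha).2) fun a _ => ?_
      · exact mem_filter.2 ⟨Nat.mem_divisors.2
          ⟨mul_dvd_mul_left p (Nat.dvd_of_mem_divisors ha), hn⟩, dvd_mul_right _ _⟩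
      · obtain ⟨h2, b, rfl⟩ := mem_filter.1 ha
        rw [Nat.mul_div_cancel_left _ h1.pos]
        exact Nat.mem_divisors.2
          ⟨Nat.dvd_of_mul_dvd_mul_left h1.pos (Nat.dvd_of_mem_divisors h2), hm⟩
      · rw [Nat.mul_div_cancel_left _ h1.pos, Nat.mul_div_mul_left _ _ h1.pos, mul_assoc]
    · simp only [Nat.mem_divisors, Nat.mem_primeFactors, mem_filter]
      exact ⟨fun h => ⟨⟨h.1, h.2.2.1⟩, h.2.1, h.2.2.1.trans h.1.1, hn⟩,
        fun h => ⟨h.1.1, h.2.1, h.1.2, ne_zero_of_dvd_ne_zero hn h.1.1.1⟩⟩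

/-- `TT_append` twice (the second time with `Ψ ++ []`). -/
theorem TT_bil (x : ℝ) (Φ Ψ : List (ℝ → ℝ)) {n M K : ℕ} (hn : n ≠ 0)
    (hM : ∀ a, al x Φ a ≠ 0 → a ≤ M) (hK : ∀ b, al x Ψ b ≠ 0 → b ≤ K) :
    TT x (Φ ++ Ψ) n =
      ∑ a ∈ Icc 1 M, ∑ b ∈ Icc 1 K, if a * b ∣ n then al x Φ a * al x Ψ b else 0 := by
  rw [TT_append x Φ Ψ hn, conv_div hn fun a h => hM a (left_ne_zero_of_mul h)]
  refine sum_congr rfl fun a _ => ?_
  split_ifs with h
  · have h1 : n / a ≠ 0 := fun h0 => hn (Nat.eq_zero_of_dvd_of_div_eq_zero h h0)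
    have h2 := TT_append x Ψ [] h1
    simp only [List.append_nil, TT, mul_one] at h2
    rw [h2, conv_div h1 hK, mul_sum]
    simp only [Nat.dvd_div_iff_mul_dvd h, mul_ite, mul_zero]
  · exact (sum_eq_zero fun b _ => if_neg fun h1 => h (dvd_of_mul_right_dvd h1)).symm

/-- Induction on `L`, generalizing `M` (use `M` itself for the tail: the hypothesis is monotone
because every `c.s` is positive); the pairs `(a, p)` with `p ∣ a` correspond to `(p, e)`,
`a = p e`; terms outside the ranges vanish by `al_supp`. -/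
theorem al_main {x : ℝ} (hx : 1 ≤ x) (L : List Cell) (h : ∀ c ∈ L, c.ok) {M : ℕ}
    (hM : ⌊(2 * x) ^ (L.map Cell.s).sum⌋₊ ≤ M) :
    ∑ a ∈ Icc 1 M, al x (L.map Cell.ph) a / a = ((L.map Cell.ph).map (pm x)).prod := by
  induction L generalizing M with
  | nil =>
    have h1 : 1 ≤ M := by simpa using hM
    rw [sum_eq_single_of_mem 1 (mem_Icc.2 ⟨le_rfl, h1⟩) fun a _ ha => by simp [al, ha]]
    simp [al]
  | cons c L ih =>
    obtain ⟨h1, h2, h3, -⟩ := h c List.mem_cons_self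
    have h4 : (1 : ℝ) ≤ 2 * x := by linarith
    rw [List.map_cons, List.sum_cons] at hM
    rw [List.map_cons, List.map_cons, List.prod_cons,
      ← ih (M := M) (fun d hd => h d (List.mem_cons_of_mem _ hd)) ((Nat.floor_mono
        (Real.rpow_le_rpow_of_exponent_le h4 (by linarith))).trans hM),
      pm, sum_mul_sum, ← sum_product']
    simp only [al, sum_div]
    rw [sum_sigma']
    refine (sum_bij_ne_zero (fun z _ _ => ⟨z.1 * z.2, z.1⟩) ?_ ?_ ?_ ?_).symm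
    · rintro ⟨p, e⟩ hz h5
      obtain ⟨h6, h7⟩ := mem_product.1 hz
      have hp := (Nat.mem_primesLE.1 h6).2
      have h8 := Nat.mul_pos hp.pos (mem_Icc.1 h7).1
      refine mem_sigma.2 ⟨mem_Icc.2 ⟨h8, (Nat.le_floor ?_).trans hM⟩,
        Nat.mem_primeFactors.2 ⟨hp, dvd_mul_right _ _, h8.ne'⟩⟩
      rw [Real.rpow_add (by linarith), Nat.cast_mul]
      exact mul_le_mul (conv_ph hx hp (div_ne_zero_iff.1 (left_ne_zero_of_mul h5)).1)
        (al_supp hx L (div_ne_zero_iff.1 (right_ne_zero_of_mul h5)).1).2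
        (Nat.cast_nonneg _) (Real.rpow_nonneg (by linarith) _)
    · rintro ⟨p, e⟩ hz - ⟨p', e'⟩ - - h5
      obtain ⟨h6, h7⟩ := Sigma.mk.inj_iff.1 h5
      obtain rfl : p = p' := eq_of_heq h7
      exact Prod.ext rfl (Nat.eq_of_mul_eq_mul_left
        (Nat.mem_primesLE.1 (mem_product.1 hz).1).2.pos h6)
    · rintro ⟨a, p⟩ hz h5
      obtain ⟨h6, h7⟩ := mem_sigma.1 hz
      dsimp only at h5 h6 h7
      obtain ⟨hp, ⟨e, rfl⟩, h8⟩ := Nat.mem_primeFactors.1 h7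
      have h9 := (div_ne_zero_iff.1 h5).1
      rw [Nat.mul_div_cancel_left _ hp.pos] at h9
      have he := Nat.pos_of_ne_zero (right_ne_zero_of_mul h8)
      refine ⟨(p, e), mem_product.2 ⟨Nat.mem_primesLE.2 ⟨Nat.le_floor ?_, hp⟩,
        mem_Icc.2 ⟨he, (Nat.le_mul_of_pos_left e hp.pos).trans (mem_Icc.1 h6).2⟩⟩, ?_, rfl⟩
      · exact (conv_ph hx hp (left_ne_zero_of_mul h9)).trans
          (Real.rpow_le_self_of_one_le h4 (by linarith))
      · exact mul_ne_zero (div_ne_zero (left_ne_zero_of_mul h9) (Nat.cast_ne_zero.2 hp.ne_zero))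
          (div_ne_zero (right_ne_zero_of_mul h9) (Nat.cast_ne_zero.2 he.ne'))
    · rintro ⟨p, e⟩ hz -
      rw [Nat.mul_div_cancel_left _ (Nat.mem_primesLE.1 (mem_product.1 hz).1).2.pos, Nat.cast_mul,
        div_mul_div_comm]

end Pool.Agent.Lib.MP_7d48f8_nt
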