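import Pool.Agent.Lib.MP_7d48f8_nt.P.Defs

/-! Repeated prime factors are rare. -/

noncomputable section

namespace Pool.Agent.Lib.MP_7d48f8_nt

open Finset MeasureTheory Filter Topology

theorem mem_II {x : ℝ} (hx : 1 ≤ x) {n : ℕ} : n ∈ II x ↔ x < n ∧ (n : ℝ) ≤ x + √x := by
  rw [II, mem_Ioc, Nat.floor_lt (by linarith), Nat.le_floor_iff (by positivity)]

theorem card_mult {x : ℝ} (hx : 1 ≤ x) {d : ℕ} (hd : 0 < d) :
    (((II x).filter fun n => d ∣ n).card : ℝ) ≤ √x / d + 2 := by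
  have hd' : (0 : ℝ) < d := by exact_mod_cast hd
  have h1 : ((II x).filter fun n => d ∣ n) ⊆
      (Ioc ⌊x / d⌋₊ ⌊(x + √x) / d⌋₊).image fun k => d * k := by
    intro n hn
    obtain ⟨h, k, rfl⟩ := mem_filter.1 hn
    obtain ⟨h2, h3⟩ := (mem_II hx).1 h
    push_cast at h2 h3
    refine mem_image.2 ⟨k, mem_Ioc.2 ⟨(Nat.floor_lt (by positivity)).2 ?_,
      Nat.le_floor ?_⟩, rfl⟩
    · rw [div_lt_iff₀ hd']
      linarith
    · rw [le_div_iff₀ hd']
      linarith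
  have h2 := (card_le_card h1).trans card_image_le
  rw [Nat.card_Ioc] at h2
  have h3 : ⌊x / d⌋₊ ≤ ⌊(x + √x) / d⌋₊ :=
    Nat.floor_mono (div_le_div_of_nonneg_right (by linarith [Real.sqrt_nonneg x]) hd'.le)
  have h4 : (((II x).filter fun n => d ∣ n).card : ℝ) ≤ (⌊(x + √x) / d⌋₊ : ℝ) - ⌊x / d⌋₊ := by
    rw [← Nat.cast_sub h3]
    exact_mod_cast h2
  have h5 := Nat.floor_le (show 0 ≤ (x + √x) / d by positivity)
  have h6 := Nat.lt_floor_add_one (x / d)
  rw [add_div] at h4 h5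
  linarith

theorem exc_log {x : ℝ} (hx : 1 ≤ x) : 0 < Real.log (2 * x) := Real.log_pos (by linarith)

theorem exc_sz {x : ℝ} (hx : 1 ≤ x) (p : ℕ) : 0 ≤ sz x p :=
  div_nonneg (Real.log_natCast_nonneg p) (exc_log hx).le

theorem exc_eq (x : ℝ) (n : ℕ) :
    ex x n = ∑ p ∈ n.primeFactors, ((n.factorization p : ℝ) - 1) * sz x p := by
  rw [ex, sz, Real.log_nat_eq_sum_factorization, Finsupp.sum, Nat.support_factorization, sum_div,
    ← sum_sub_distrib]
  refine sum_congr rfl fun p _ => ?_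
  rw [sz]
  ring

/-- `log n` is the sum of `v_p log p`. -/
theorem ex_ge {x : ℝ} (hx : 1 ≤ x) (n : ℕ) :
    ∑ p ∈ n.primeFactors.filter (fun p => p * p ∣ n), sz x p ≤ ex x n := by
  rw [exc_eq, sum_filter]
  refine sum_le_sum fun p hp => ?_
  obtain ⟨h1, h2, h3⟩ := Nat.mem_primeFactors.1 hp
  have h4 := exc_sz hx p
  split_ifs with h
  · have : (2 : ℝ) ≤ n.factorization p := by
      exact_mod_cast (h1.pow_dvd_iff_le_factorization h3).1 (by rwa [sq])
    nlinarith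
  · have : (1 : ℝ) ≤ n.factorization p := by
      exact_mod_cast (h1.dvd_iff_one_le_factorization h3).1 h2
    nlinarith

theorem ex_nonneg {x : ℝ} (hx : 1 ≤ x) (n : ℕ) : 0 ≤ ex x n :=
  (sum_nonneg fun p _ => exc_sz hx p).trans (ex_ge hx n)

theorem pat_sp {x : ℝ} (hx : 1 ≤ x) {n : ℕ} (hn : (n : ℝ) ≤ 2 * x) : Pat (sp x n) (sz x) := by
  refine ⟨fun p hp => ⟨div_pos (Real.log_pos ?_) (exc_log hx), (mem_filter.1 hp).2⟩, ?_⟩
  · exact_mod_cast (Nat.prime_of_mem_primeFactors (mem_filter.1 hp).1).one_lt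
  · have h1 : ∑ p ∈ sp x n, sz x p ≤ ∑ p ∈ n.primeFactors, sz x p :=
      sum_le_sum_of_subset_of_nonneg (filter_subset _ _) fun p _ _ => exc_sz hx p
    have h2 := ex_nonneg hx n
    have h3 : sz x n ≤ 1 := by
      refine (div_le_one (exc_log hx)).2 ?_
      rcases n.eq_zero_or_pos with rfl | h
      · simpa using (exc_log hx).le
      · exact Real.log_le_log (by exact_mod_cast h) hn
    rw [ex] at h2
    linarith

open ArithmeticFunction in
theorem exc_div (x : ℝ) (n : ℕ) : ex x n =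
    (∑ d ∈ n.divisors, if d.Prime then 0 else vonMangoldt d) / Real.log (2 * x) := by
  rw [ex, sz, ← vonMangoldt_sum, Nat.primeFactors_eq_to_filter_divisors_prime, sum_filter,
    sum_div, sum_div, ← sum_sub_distrib]
  refine sum_congr rfl fun d _ => ?_
  split_ifs with h
  · rw [vonMangoldt_apply_prime h, sz, sub_self, zero_div]
  · rw [sub_zero]

/-- `ex x n * log (2 x)` is the sum of `Λ d` over the divisors `d` of `n` that are not prime
(`ArithmeticFunction.vonMangoldt_sum`).  Exchange the sums, use `card_mult`,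
`ArithmeticFunction.vonMangoldt.summable_residueClass_non_primes_div` (modulus `1`),
`Chebyshev.psi_sub_theta_eq_sum_not_prime` and `Chebyshev.psi_sub_theta_le_mul_sqrt`. -/
theorem ex_sum : ∃ C : ℝ, ∀ x : ℝ, 1 ≤ x → ∑ n ∈ II x, ex x n ≤ C * √x / Real.log (2 * x) := by
  obtain ⟨f, hf⟩ : ∃ f : ℕ → ℝ, f = fun d => if d.Prime then 0 else
    ArithmeticFunction.vonMangoldt d := ⟨_, rfl⟩
  have f0 : ∀ d, 0 ≤ f d := fun d => by
    rw [hf]
    dsimp only
    split_ifs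
    exacts [le_rfl, ArithmeticFunction.vonMangoldt_nonneg]
  have hs : Summable fun d : ℕ => f d / d := by
    refine (ArithmeticFunction.vonMangoldt.summable_residueClass_non_primes_div
      (0 : ZMod 1)).congr fun d => ?_
    rw [hf, ArithmeticFunction.vonMangoldt.residueClass,
      Set.indicator_of_mem (show d ∈ {n : ℕ | (n : ZMod 1) = 0} from Subsingleton.elim _ _)]
  obtain ⟨C, hC⟩ := Chebyshev.psi_sub_theta_le_mul_sqrt
  refine ⟨∑' d : ℕ, f d / d + 4 * |C|, fun x hx => ?_⟩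
  simp only [exc_div]
  rw [← sum_div]
  refine div_le_div_of_nonneg_right ?_ (exc_log hx).le
  have hq : √x ≤ x := Real.sqrt_le_iff.2 ⟨by linarith, by nlinarith⟩
  have h1 : ∀ n ∈ II x, (∑ d ∈ n.divisors, if d.Prime then 0 else
      ArithmeticFunction.vonMangoldt d) = ∑ d ∈ Ioc 0 ⌊2 * x⌋₊, if d ∣ n then f d else 0 := by
    intro n hn
    obtain ⟨h2, h3⟩ := (mem_II hx).1 hn
    have h4 : 0 < n := by exact_mod_cast (show (0 : ℝ) < n by linarith)
    have h5 : n ≤ ⌊2 * x⌋₊ := Nat.le_floor (by linarith)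
    rw [← sum_filter, hf]
    refine sum_congr ?_ fun _ _ => rfl
    ext d
    simp only [Nat.mem_divisors, mem_filter, mem_Ioc]
    exact ⟨fun h => ⟨⟨Nat.pos_of_dvd_of_pos h.1 h4, (Nat.le_of_dvd h4 h.1).trans h5⟩, h.1⟩,
      fun h => ⟨h.2, h4.ne'⟩⟩
  rw [sum_congr rfl h1, sum_comm]
  have h2 : ∀ d ∈ Ioc 0 ⌊2 * x⌋₊, (∑ n ∈ II x, if d ∣ n then f d else 0) ≤
      √x * (f d / d) + 2 * f d := by
    intro d hd
    rw [← sum_filter, sum_const, nsmul_eq_mul]
    refine (mul_le_mul_of_nonneg_right (card_mult hx (mem_Ioc.1 hd).1) (f0 d)).trans_eq ?_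
    ring
  refine (sum_le_sum h2).trans ?_
  rw [sum_add_distrib, ← mul_sum, ← mul_sum]
  have h3 : ∑ d ∈ Ioc 0 ⌊2 * x⌋₊, f d / d ≤ ∑' d : ℕ, f d / d :=
    hs.sum_le_tsum _ fun d _ => div_nonneg (f0 d) d.cast_nonneg
  have h4 : ∑ d ∈ Ioc 0 ⌊2 * x⌋₊, f d ≤ C * √(2 * x) := by
    refine le_trans (le_of_eq ?_) (hC _)
    rw [Chebyshev.psi_sub_theta_eq_sum_not_prime, sum_filter, hf]
    exact sum_congr rfl fun d _ => (ite_not _ _ _).symm
  have h5 : √(2 * x) ≤ 2 * √x :=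
    Real.sqrt_le_iff.2 ⟨by positivity, by nlinarith [Real.sq_sqrt (show 0 ≤ x by linarith)]⟩
  have h6 : C * √(2 * x) ≤ |C| * (2 * √x) :=
    mul_le_mul (le_abs_self C) h5 (Real.sqrt_nonneg _) (abs_nonneg C)
  nlinarith [mul_le_mul_of_nonneg_left h3 (Real.sqrt_nonneg x)]

theorem ex_small {δ : ℝ} (hδ : 0 < δ) : ∀ᶠ x : ℝ in atTop, ∑ n ∈ II x, ex x n ≤ δ * √x := by
  obtain ⟨C, hC⟩ := ex_sum
  have h1 : Tendsto (fun x : ℝ => Real.log (2 * x)) atTop atTop :=
    Real.tendsto_log_atTop.comp (tendsto_id.const_mul_atTop two_pos)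
  filter_upwards [eventually_ge_atTop 1, h1.eventually_ge_atTop (C / δ)] with x hx h2
  refine (hC x hx).trans ((div_le_iff₀ (exc_log hx)).2 ?_)
  rw [div_le_iff₀ hδ] at h2
  nlinarith [Real.sqrt_nonneg x]

end Pool.Agent.Lib.MP_7d48f8_nt
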