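import Pool.Agent.Lib.MP_7d48f8_nt.P.Reg
import Pool.Agent.Lib.MP_7d48f8_nt.P.Exc
import Pool.Agent.Lib.MP_7d48f8_nt.P.Conv

/-! Distinct primes against arbitrary primes. -/

noncomputable section

namespace Pool.Agent.Lib.MP_7d48f8_nt

open Finset MeasureTheory Filter Topology

theorem cmp_div (x : ℝ) {p m : ℕ} (hp : p.Prime) (hm : m ≠ 0) (h : ¬ p ∣ m) :
    sp x m = (sp x (p * m)).erase p ∧ ex x m = ex x (p * m) := by
  have h1 : (p * m).primeFactors = insert p m.primeFactors := by
    rw [Nat.primeFactors_mul hp.ne_zero hm, hp.primeFactors, Finset.insert_eq]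
  have h2 : p ∉ m.primeFactors := fun e => h (Nat.dvd_of_mem_primeFactors e)
  constructor
  · rw [sp, sp, ← Finset.filter_erase, h1, Finset.erase_insert h2]
  · rw [ex, ex, h1, Finset.sum_insert h2, sz, sz, sz, Nat.cast_mul,
      Real.log_mul (Nat.cast_ne_zero.2 hp.ne_zero) (Nat.cast_ne_zero.2 hm), add_div]
    ring

/-- Induction on `Φ`, generalizing `n`.  Primes of size at least `1 / 2` have weight zero.  If
`¬ p * p ∣ n` then `sp x (n / p) = (sp x n).erase p` and `ex x (n / p) = ex x n`; the primes with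
`p * p ∣ n` contribute at most `2 B ^ (k + 1)` times the sum in `ex_ge`. -/
theorem cmp_TT {x B : ℝ} (hx : 1 ≤ x) (hB : 0 ≤ B) {Φ : List (ℝ → ℝ)} (hΦ : Wt B Φ) {n : ℕ}
    (hn : n ≠ 0) (hn' : (n : ℝ) ≤ 2 * x) :
    |TT x Φ n - UL Φ (sp x n) (sz x)| ≤ 2 * Φ.length * B ^ Φ.length * ex x n := by
  induction Φ generalizing n with
  | nil => simp [TT, UL]
  | cons φ Φ ih =>
    have hφ := hΦ φ List.mem_cons_self
    have hΦ' : Wt B Φ := fun ψ h => hΦ ψ (List.mem_cons_of_mem _ h)
    have hP := pat_sp hx hn'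
    have he := ex_nonneg hx n
    have h1 : TT x (φ :: Φ) n = ∑ p ∈ sp x n, φ (sz x p) * TT x Φ (n / p) := by
      refine (Finset.sum_filter_of_ne fun p _ h => ?_).symm
      by_contra h'
      exact h (by rw [hφ.2 _ (not_lt.1 h'), zero_mul])
    have h2 : ∀ p ∈ sp x n,
        |φ (sz x p) * TT x Φ (n / p) - φ (sz x p) * UL Φ ((sp x n).erase p) (sz x)| ≤
          2 * Φ.length * B ^ (Φ.length + 1) * ex x n * sz x p +
            2 * B ^ (Φ.length + 1) * if p * p ∣ n then sz x p else 0 := by
      intro p hp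
      have h0 := (hP.1 p hp).1
      have hp' := (Finset.mem_filter.1 hp).1
      have hd : ((n / p : ℕ) : ℝ) ≤ 2 * x := (Nat.cast_le.2 (Nat.div_le_self n p)).trans hn'
      rw [← mul_sub, abs_mul]
      split_ifs with h
      · have h3 := TT_bound hx hB hΦ' hd
        have h4 := UL_bound hB hΦ' (pat_subset hP (Finset.erase_subset p _))
        have h5 := mul_le_mul (hφ.1 _ h0) ((abs_sub _ _).trans (add_le_add h3 h4)) (abs_nonneg _)
          (by positivity)
        have h6 : 0 ≤ 2 * Φ.length * B ^ (Φ.length + 1) * ex x n * sz x p := by positivity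
        rw [pow_succ] at h6 ⊢
        linarith
      · obtain ⟨m, rfl⟩ := Nat.dvd_of_mem_primeFactors hp'
        have hq := Nat.prime_of_mem_primeFactors hp'
        have hm : m ≠ 0 := right_ne_zero_of_mul hn
        rw [Nat.mul_div_cancel_left m hq.pos] at hd ⊢
        obtain ⟨e1, e2⟩ := cmp_div x hq hm fun e => h (Nat.mul_dvd_mul_left p e)
        have h5 := mul_le_mul (hφ.1 _ h0) (ih hΦ' hm hd) (abs_nonneg _) (by positivity)
        rw [← e1, ← e2, pow_succ]
        linarith
    have h3 : ∑ p ∈ sp x n, (if p * p ∣ n then sz x p else 0) ≤ ex x n := by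
      rw [← Finset.sum_filter]
      refine le_trans (Finset.sum_le_sum_of_subset_of_nonneg
        (Finset.filter_subset_filter _ (Finset.filter_subset _ _)) fun p _ _ => ?_) (ex_ge hx n)
      exact div_nonneg (Real.log_natCast_nonneg p) (Real.log_nonneg (by linarith))
    rw [h1, UL, ← Finset.sum_sub_distrib]
    refine (Finset.abs_sum_le_sum_abs _ _).trans ((Finset.sum_le_sum h2).trans ?_)
    rw [Finset.sum_add_distrib, ← Finset.mul_sum, ← Finset.mul_sum, List.length_cons]
    have h4 := mul_le_mul_of_nonneg_left hP.2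
      (show 0 ≤ 2 * Φ.length * B ^ (Φ.length + 1) * ex x n by positivity)
    have h5 := mul_le_mul_of_nonneg_left h3 (show 0 ≤ 2 * B ^ (Φ.length + 1) by positivity)
    push_cast
    linarith

end Pool.Agent.Lib.MP_7d48f8_nt
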