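import Pool.Agent.Lib.MP_7d48f8_nt.P.Defs

/-! Linear combinations. -/

noncomputable section

namespace Pool.Agent.Lib.MP_7d48f8_nt

open Finset MeasureTheory Filter Topology

theorem good_zero : Good (fun _ _ => 0) 0 := by
  refine ⟨⟨fun _ _ _ _ => rfl, ⟨0, fun _ _ _ => by simp⟩, ⟨0, fun _ _ _ _ _ => by simp⟩⟩,
    fun w _ => ?_⟩
  simp

theorem good_add {W V : Finset ℕ → (ℕ → ℝ) → ℝ} {m k : ℝ} (hW : Good W m) (hV : Good V k) :
    Good (fun S t => W S t + V S t) (m + k) := by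
  obtain ⟨⟨c1, ⟨B1, b1⟩, ⟨L1, l1⟩⟩, a1⟩ := hW
  obtain ⟨⟨c2, ⟨B2, b2⟩, ⟨L2, l2⟩⟩, a2⟩ := hV
  refine ⟨⟨fun S t t' h => by rw [c1 S t t' h, c2 S t t' h], ⟨B1 + B2, fun S t h => ?_⟩,
    ⟨L1 + L2, fun S t i hi h => ?_⟩⟩, fun w hw => ?_⟩
  · exact (abs_add_le _ _).trans (add_le_add (b1 S t h) (b2 S t h))
  · have e : W (insert i S) t + V (insert i S) t - (W S t + V S t) =
        (W (insert i S) t - W S t) + (V (insert i S) t - V S t) := by ring
    rw [e, add_mul]
    exact (abs_add_le _ _).trans (add_le_add (l1 S t i hi h) (l2 S t i hi h))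
  · have h := (a1 w hw).add (a2 w hw)
    rw [← add_mul] at h
    refine h.congr fun x => ?_
    rw [← add_div, ← sum_add_distrib]
    simp only [mul_add]

theorem good_smul {W : Finset ℕ → (ℕ → ℝ) → ℝ} {m : ℝ} (c : ℝ) (hW : Good W m) :
    Good (fun S t => c * W S t) (c * m) := by
  obtain ⟨⟨c1, ⟨B1, b1⟩, ⟨L1, l1⟩⟩, a1⟩ := hW
  refine ⟨⟨fun S t t' h => by rw [c1 S t t' h], ⟨|c| * B1, fun S t h => ?_⟩,
    ⟨|c| * L1, fun S t i hi h => ?_⟩⟩, fun w hw => ?_⟩
  · rw [abs_mul]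
    exact mul_le_mul_of_nonneg_left (b1 S t h) (abs_nonneg c)
  · rw [← mul_sub, abs_mul, mul_assoc]
    exact mul_le_mul_of_nonneg_left (l1 S t i hi h) (abs_nonneg c)
  · have h := (a1 w hw).const_mul c
    rw [← mul_assoc] at h
    refine h.congr fun x => ?_
    rw [← mul_div_assoc, mul_sum]
    simp only [mul_left_comm c]

theorem good_sum {ι : Type*} (F : Finset ι) (W : ι → Finset ℕ → (ℕ → ℝ) → ℝ) (m : ι → ℝ)
    (h : ∀ f ∈ F, Good (W f) (m f)) : Good (fun S t => ∑ f ∈ F, W f S t) (∑ f ∈ F, m f) := by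
  classical
  induction F using Finset.induction_on with
  | empty => simpa only [sum_empty] using good_zero
  | insert a F ha ih =>
    simp only [sum_insert ha]
    exact good_add (h a (mem_insert_self a F)) (ih fun f hf => h f (mem_insert_of_mem hf))

theorem good_list {ι : Type*} (F : List ι) (W : ι → Finset ℕ → (ℕ → ℝ) → ℝ) (m : ι → ℝ)
    (h : ∀ f ∈ F, Good (W f) (m f)) :
    Good (fun S t => (F.map fun f => W f S t).sum) (F.map m).sum := by
  induction F with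
  | nil => simpa only [List.map_nil, List.sum_nil] using good_zero
  | cons a F ih =>
    simp only [List.map_cons, List.sum_cons]
    exact good_add (h a List.mem_cons_self) (ih fun f hf => h f (List.mem_cons_of_mem a hf))

/-- Approximation: `0 ≤ w ≤ 1`; split the difference into three parts. -/
theorem asy_approx {W : Finset ℕ → (ℕ → ℝ) → ℝ} {m : ℝ}
    (h : ∀ δ : ℝ, 0 < δ → ∃ V k, Asy V k ∧ |k - m| ≤ δ ∧
      ∀ᶠ x : ℝ in atTop, ∑ n ∈ II x, |W (sp x n) (sz x) - V (sp x n) (sz x)| ≤ δ * √x) :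
    Asy W m := by
  intro w hw
  have hI := hw.pos
  refine Metric.tendsto_nhds.2 fun ε hε => ?_
  obtain ⟨V, k, hV, hk, hx⟩ := h (ε / (3 * ((∫ t, w t) + 1))) (by positivity)
  have h1 := Metric.tendsto_nhds.1 (hV w hw) (ε / 3) (by positivity)
  filter_upwards [hx, h1, eventually_gt_atTop 0] with x h2 h3 h4
  have hs : 0 < √x := Real.sqrt_pos.2 h4
  rw [Real.dist_eq] at h3 ⊢
  set I := ∫ t, w t
  set δ := ε / (3 * (I + 1)) with hδ
  have h5 : |(∑ n ∈ II x, w ((n - x) / √x) * W (sp x n) (sz x)) / √x -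
      (∑ n ∈ II x, w ((n - x) / √x) * V (sp x n) (sz x)) / √x| ≤ δ := by
    rw [← sub_div, abs_div, abs_of_pos hs, div_le_iff₀ hs, ← sum_sub_distrib]
    refine (abs_sum_le_sum_abs _ _).trans (le_trans (sum_le_sum fun n _ => ?_) h2)
    rw [← mul_sub, abs_mul, abs_of_nonneg (hw.nonneg _)]
    exact mul_le_of_le_one_left (abs_nonneg _) (hw.le_one _)
  have h6 : |k * I - m * I| ≤ δ * I := by
    rw [← sub_mul, abs_mul, abs_of_pos hI]
    exact mul_le_mul_of_nonneg_right hk hI.le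
  have h7 : δ * I + δ = ε / 3 := by
    rw [hδ]
    field_simp
  obtain ⟨a1, a2⟩ := abs_le.1 h5
  obtain ⟨b1, b2⟩ := abs_le.1 h6
  obtain ⟨c1, c2⟩ := abs_lt.1 h3
  rw [abs_lt]
  constructor <;> linarith

/-- A continuous function on a compact interval is bounded. -/
theorem exists_wt (L : List Cell) (h : ∀ c ∈ L, c.ok) : ∃ B : ℝ, 1 ≤ B ∧ Wt B (L.map Cell.ph) ∧
    ∀ c ∈ L, ∀ t ∈ Set.Icc c.r c.s, |c.g t| ≤ B := by
  have key : ∃ B : ℝ, 1 ≤ B ∧ ∀ c ∈ L, ∀ t ∈ Set.Icc c.r c.s, |c.g t| ≤ B := by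
    induction L with
    | nil => exact ⟨1, le_rfl, fun c hc => absurd hc List.not_mem_nil⟩
    | cons a L ih =>
      obtain ⟨B, hB, hb⟩ := ih fun c hc => h c (List.mem_cons_of_mem a hc)
      obtain ⟨C, hC⟩ := isCompact_Icc.exists_bound_of_continuousOn (h a List.mem_cons_self).2.2.2
      refine ⟨max B C, hB.trans (le_max_left _ _), fun c hc t ht => ?_⟩
      rcases List.mem_cons.1 hc with rfl | hc
      · exact (hC t ht).trans (le_max_right _ _)
      · exact (hb c hc t ht).trans (le_max_left _ _)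
  obtain ⟨B, hB, hb⟩ := key
  refine ⟨B, hB, fun φ hφ => ?_, hb⟩
  obtain ⟨c, hc, rfl⟩ := List.mem_map.1 hφ
  refine ⟨fun t ht => ?_, fun t ht => ?_⟩
  · unfold Cell.ph
    split_ifs with h1
    · rw [abs_mul, abs_of_pos ht, mul_comm]
      exact mul_le_mul_of_nonneg_right (hb c hc t ⟨h1.1, h1.2.le⟩) ht.le
    · rw [abs_zero]
      exact mul_nonneg (zero_le_one.trans hB) ht.le
  · unfold Cell.ph
    exact if_neg fun h1 => absurd (h1.2.trans_le (h c hc).2.2.1) (not_lt.2 ht)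

theorem cut_ok {c : Cell} (h : c.ok) {e : ℝ} (h0 : 0 < e) (h1 : e < 1) :
    (c.cut e).ok ∧ (c.cut e).s < c.s := by
  obtain ⟨a1, a2, a3, a4⟩ := h
  have b1 : 0 < e * (c.s - c.r) := mul_pos h0 (sub_pos.2 a2)
  have b2 : 0 < (1 - e) * (c.s - c.r) := mul_pos (sub_pos.2 h1) (sub_pos.2 a2)
  have b3 : c.s - e * (c.s - c.r) < c.s := by linarith
  refine ⟨⟨a1, ?_, b3.le.trans a3, a4.mono (Set.Icc_subset_Icc_right b3.le)⟩, b3⟩
  show c.r < c.s - e * (c.s - c.r)
  linarith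

/-- `|∫ g|` over `[s - e (s - r), s]` is at most `B e`; products of finitely many convergent
functions. -/
theorem tendsto_ms_cut (L : List Cell) (h : ∀ c ∈ L, c.ok) :
    Tendsto (fun e : ℝ => ((L.map (Cell.cut e)).map Cell.ms).prod) (𝓝[>] 0)
      (𝓝 (L.map Cell.ms).prod) := by
  induction L with
  | nil => exact tendsto_const_nhds
  | cons c L ih =>
    simp only [List.map_cons, List.prod_cons]
    refine Tendsto.mul ?_ (ih fun c hc => h c (List.mem_cons_of_mem _ hc))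
    have hc := h c List.mem_cons_self
    obtain ⟨a1, a2, a3, a4⟩ := id hc
    have h1 : ContinuousOn (fun x => ∫ t in c.r..x, c.g t) (Set.uIcc c.r c.s) := by
      refine intervalIntegral.continuousOn_primitive_interval ?_
      rw [Set.uIcc_of_le a2.le]
      exact a4.integrableOn_Icc
    have h2 : Tendsto (fun e : ℝ => c.s - e * (c.s - c.r)) (𝓝[>] 0) (𝓝[Set.uIcc c.r c.s] c.s) := by
      refine tendsto_nhdsWithin_iff.2 ⟨?_, ?_⟩
      · have : Tendsto (fun e : ℝ => c.s - e * (c.s - c.r)) (𝓝 0) (𝓝 (c.s - 0 * (c.s - c.r))) :=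
          (continuous_const.sub (continuous_id.mul continuous_const)).tendsto 0
        rw [zero_mul, sub_zero] at this
        exact this.mono_left nhdsWithin_le_nhds
      · filter_upwards [Ioo_mem_nhdsGT (zero_lt_one (α := ℝ))] with e he
        obtain ⟨b1, b2⟩ := cut_ok hc he.1 he.2
        rw [Set.uIcc_of_le a2.le]
        exact ⟨b1.2.1.le, b2.le⟩
    exact (h1 c.s Set.right_mem_uIcc).tendsto.comp h2

end Pool.Agent.Lib.MP_7d48f8_nt
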