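import Pool.Agent.Lib.MP_7d48f8_nt.B.Defs

/-! Vocabulary for weights on the prime factors of the integers of the short interval. -/

noncomputable section

namespace Pool.Agent.Lib.MP_7d48f8_nt

open Finset MeasureTheory Filter Topology

/-- The size of `p` on the scale `2 x`. -/
def sz (x : ℝ) (p : ℕ) : ℝ := Real.log p / Real.log (2 * x)

/-- The prime factors of size below `1 / 2`. -/
def sp (x : ℝ) (n : ℕ) : Finset ℕ := n.primeFactors.filter fun p => sz x p < 1 / 2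

/-- The part of the size of `n` that comes from repeated prime factors. -/
def ex (x : ℝ) (n : ℕ) : ℝ := sz x n - ∑ p ∈ n.primeFactors, sz x p

/-- A pattern: sizes in `(0, 1 / 2)` with total at most `1`. -/
def Pat (S : Finset ℕ) (t : ℕ → ℝ) : Prop :=
  (∀ i ∈ S, 0 < t i ∧ t i < 1 / 2) ∧ ∑ i ∈ S, t i ≤ 1

/-- Regular functions of patterns. -/
structure Reg (W : Finset ℕ → (ℕ → ℝ) → ℝ) : Prop where
  congr : ∀ S t t', (∀ i ∈ S, t i = t' i) → W S t = W S t'
  bdd : ∃ C, ∀ S t, Pat S t → |W S t| ≤ C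
  lip : ∃ C, ∀ S t i, i ∉ S → Pat (insert i S) t → |W (insert i S) t - W S t| ≤ C * t i

/-- The mean value of `W` over the short interval tends to `m`. -/
def Asy (W : Finset ℕ → (ℕ → ℝ) → ℝ) (m : ℝ) : Prop :=
  ∀ w, Bump w → Tendsto (fun x : ℝ => (∑ n ∈ II x, w ((n - x) / √x) * W (sp x n) (sz x)) / √x)
    atTop (𝓝 (m * ∫ t, w t))

/-- Regular with mean value `m`. -/
def Good (W : Finset ℕ → (ℕ → ℝ) → ℝ) (m : ℝ) : Prop := Reg W ∧ Asy W m

/-- A weight `t * g t` on the interval `[r, s)`. -/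
structure Cell where
  r : ℝ
  s : ℝ
  g : ℝ → ℝ

/-- Admissible cells. -/
def Cell.ok (c : Cell) : Prop :=
  0 ≤ c.r ∧ c.r < c.s ∧ c.s ≤ 1 / 2 ∧ ContinuousOn c.g (Set.Icc c.r c.s)

/-- The weight function of a cell. -/
def Cell.ph (c : Cell) (t : ℝ) : ℝ := if c.r ≤ t ∧ t < c.s then t * c.g t else 0

/-- The mass `∫ ph t / t` of a cell. -/
def Cell.ms (c : Cell) : ℝ := ∫ t in c.r..c.s, c.g t

/-- The cell with a fraction `e` of its length cut off at the top. -/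
def Cell.cut (e : ℝ) (c : Cell) : Cell := ⟨c.r, c.s - e * (c.s - c.r), c.g⟩

/-- Sum over sequences of distinct elements of `S` of the product of the weights. -/
def UL : List (ℝ → ℝ) → Finset ℕ → (ℕ → ℝ) → ℝ
  | [], _, _ => 1
  | φ :: Φ, S, t => ∑ p ∈ S, φ (t p) * UL Φ (S.erase p) t

/-- `al Φ a`: sum over the sequences of primes with product `a`. -/
def al (x : ℝ) : List (ℝ → ℝ) → ℕ → ℝ
  | [], a => if a = 1 then 1 else 0
  | φ :: Φ, a => ∑ p ∈ a.primeFactors, φ (sz x p) * al x Φ (a / p)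

/-- `TT Φ n`: sum over the sequences of primes whose product divides `n`. -/
def TT (x : ℝ) : List (ℝ → ℝ) → ℕ → ℝ
  | [], _ => 1
  | φ :: Φ, n => ∑ p ∈ n.primeFactors, φ (sz x p) * TT x Φ (n / p)

/-- The weights of `Φ` are at most `B t` on `(0, 1 / 2)` and vanish from `1 / 2` on. -/
def Wt (B : ℝ) (Φ : List (ℝ → ℝ)) : Prop :=
  ∀ φ ∈ Φ, (∀ t, 0 < t → |φ t| ≤ B * t) ∧ ∀ t, 1 / 2 ≤ t → φ t = 0

/-- The sum of `φ (sz p) / p` over the primes up to `2 x`. -/
def pm (x : ℝ) (φ : ℝ → ℝ) : ℝ := ∑ p ∈ Nat.primesLE ⌊2 * x⌋₊, φ (sz x p) / p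

end Pool.Agent.Lib.MP_7d48f8_nt
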