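import Pool.Agent.Lib.MP_7615ea_nt.Mert
import Pool.Agent.Lib.MP_7d48f8_nt.P.Defs

/-! Equidistribution of the sizes of the primes. -/

noncomputable section

namespace Pool.Agent.Lib.MP_7d48f8_nt

open Finset MeasureTheory Filter Topology

/-- From `MP_7615ea_nt.mertens1` with `Y = (2 x) ^ a`, `Z = (2 x) ^ b`. -/
theorem mer_slab {a b : ℝ} (ha : 0 ≤ a) (hab : a ≤ b) (hb : b ≤ 1) :
    Tendsto (fun x : ℝ => ∑ p ∈ (Nat.primesLE ⌊2 * x⌋₊).filter (fun p => a ≤ sz x p ∧ sz x p < b),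
      sz x p / p) atTop (𝓝 (b - a)) := by
  obtain ⟨C, -, hC⟩ := MP_7615ea_nt.mertens1
  have h2 : Tendsto (fun x : ℝ => Real.log (2 * x)) atTop atTop :=
    Real.tendsto_log_atTop.comp (tendsto_id.const_mul_atTop two_pos)
  rw [tendsto_iff_norm_sub_tendsto_zero]
  refine squeeze_zero' (Eventually.of_forall fun _ => norm_nonneg _) ?_ (h2.const_div_atTop C)
  filter_upwards [eventually_gt_atTop 1] with x hx
  have hL : 0 < Real.log (2 * x) := Real.log_pos (by linarith)
  have e : (Nat.primesLE ⌊2 * x⌋₊).filter (fun p => a ≤ sz x p ∧ sz x p < b) =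
      MP_7615ea_nt.pI (Real.exp (a * Real.log (2 * x))) (Real.exp (b * Real.log (2 * x))) := by
    ext p
    simp only [MP_7615ea_nt.pI, mem_filter, Nat.mem_primesLE, sz, le_div_iff₀ hL, div_lt_iff₀ hL]
    have hz : Real.exp (b * Real.log (2 * x)) ≤ 2 * x := by
      rw [← Real.le_log_iff_exp_le (by linarith)]
      exact mul_le_of_le_one_left hL.le hb
    constructor
    · rintro ⟨⟨-, hp⟩, h3, h4⟩
      have p0 : (0 : ℝ) < p := Nat.cast_pos.2 hp.pos
      rw [Real.le_log_iff_exp_le p0] at h3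
      rw [Real.log_lt_iff_lt_exp p0] at h4
      exact ⟨⟨Nat.le_floor h4.le, hp⟩, h3, h4⟩
    · rintro ⟨⟨-, hp⟩, h3, h4⟩
      have p0 : (0 : ℝ) < p := Nat.cast_pos.2 hp.pos
      exact ⟨⟨Nat.le_floor (h4.le.trans hz), hp⟩, (Real.le_log_iff_exp_le p0).2 h3,
        (Real.log_lt_iff_lt_exp p0).2 h4⟩
  have h3 := hC (Real.exp (a * Real.log (2 * x))) (Real.exp (b * Real.log (2 * x)))
    (Real.one_le_exp (by positivity)) (by gcongr)
  rw [← Real.exp_sub, Real.log_exp, ← sub_mul] at h3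
  rw [e, Real.norm_eq_abs, le_div_iff₀ hL, ← abs_of_pos hL, ← abs_mul, abs_of_pos hL, sub_mul,
    sum_mul]
  refine le_of_eq_of_le ?_ h3
  congr 2
  refine sum_congr rfl fun p _ => ?_
  rw [sz]
  field_simp

/-- The weighted sum over the primes with size in `[u, v)`. -/
def mer_F (g : ℝ → ℝ) (u v x : ℝ) : ℝ :=
  ∑ p ∈ (Nat.primesLE ⌊2 * x⌋₊).filter (fun p => u ≤ sz x p ∧ sz x p < v),
    sz x p * g (sz x p) / p

theorem mer_add (g : ℝ → ℝ) {u v w : ℝ} (h1 : u ≤ v) (h2 : v ≤ w) (x : ℝ) :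
    mer_F g u w x = mer_F g u v x + mer_F g v w x := by
  simp only [mer_F, sum_filter, ← sum_add_distrib]
  refine sum_congr rfl fun p _ => ?_
  rcases lt_or_ge (sz x p) v with h | h
  · simp [h, h.trans_le h2, h.not_ge]
  · simp [h, h1.trans h, h.not_gt]

theorem mer_loc {g : ℝ → ℝ} {u v ε η : ℝ} (h0 : 0 ≤ u) (h1 : u ≤ v) (h2 : v ≤ 1)
    (hg : ContinuousOn g (Set.Icc u v)) (hε : ∀ t ∈ Set.Icc u v, |g t - g u| ≤ ε) (hη : 0 < η) :
    ∀ᶠ x in atTop, |mer_F g u v x - ∫ t in u..v, g t| ≤ 2 * ε * (v - u) + η := by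
  have hS := mer_slab h0 h1 h2
  have h3 := ((hS.const_mul ε).add (((hS.sub_const (v - u)).const_mul (g u)).abs)).add_const
    (ε * (v - u))
  have h4 : |g u * (v - u) - ∫ t in u..v, g t| ≤ ε * (v - u) := by
    have e : g u * (v - u) - ∫ t in u..v, g t = ∫ t in u..v, (g u - g t) := by
      rw [intervalIntegral.integral_sub intervalIntegrable_const
        (hg.intervalIntegrable_of_Icc h1), intervalIntegral.integral_const, smul_eq_mul, mul_comm]
    have := intervalIntegral.norm_integral_le_of_norm_le_const (a := u) (b := v) (C := ε)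
      (f := fun t => g u - g t) fun t ht => by
        rw [Set.uIoc_of_le h1] at ht
        rw [Real.norm_eq_abs, abs_sub_comm]
        exact hε t ⟨ht.1.le, ht.2⟩
    rwa [Real.norm_eq_abs, abs_of_nonneg (sub_nonneg.2 h1), ← e] at this
  filter_upwards [h3.eventually_le_const (u := 2 * ε * (v - u) + η) (by
    rw [sub_self, mul_zero, abs_zero]
    linarith)] with x hx
  generalize hT : (Nat.primesLE ⌊2 * x⌋₊).filter (fun p => u ≤ sz x p ∧ sz x p < v) = T at hx
  have h5 : |mer_F g u v x - g u * ∑ p ∈ T, sz x p / p| ≤ ε * ∑ p ∈ T, sz x p / p := by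
    rw [mer_F, hT, mul_sum, mul_sum, ← sum_sub_distrib]
    refine (abs_sum_le_sum_abs _ _).trans (sum_le_sum fun p hp => ?_)
    rw [← hT, mem_filter] at hp
    have p0 : 0 ≤ sz x p / p := div_nonneg (h0.trans hp.2.1) p.cast_nonneg
    rw [show sz x p * g (sz x p) / p - g u * (sz x p / p) = (g (sz x p) - g u) * (sz x p / p) by
      ring, abs_mul, abs_of_nonneg p0]
    exact mul_le_mul_of_nonneg_right (hε _ ⟨hp.2.1, hp.2.2.le⟩) p0
  have h6 := abs_sub_le (mer_F g u v x) (g u * ∑ p ∈ T, sz x p / p) (∫ t in u..v, g t)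
  have h7 := abs_sub_le (g u * ∑ p ∈ T, sz x p / p) (g u * (v - u)) (∫ t in u..v, g t)
  rw [← mul_sub] at h7
  linarith

/-- Cut `[r, s)` into `k` equal parts on which `g` varies by at most `δ` (uniform continuity),
compare both sides with the Riemann sum. -/
theorem mer_gen {g : ℝ → ℝ} {r s : ℝ} (h0 : 0 ≤ r) (h1 : r < s) (h2 : s ≤ 1) (h3 : s - r ≤ 1 / 2)
    (hg : ContinuousOn g (Set.Icc r s)) :
    Tendsto (fun x : ℝ => mer_F g r s x) atTop (𝓝 (∫ t in r..s, g t)) := by
  refine Metric.tendsto_nhds.2 fun ε hε => ?_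
  obtain ⟨δ, hδ, hu⟩ := Metric.uniformContinuousOn_iff_le.1
    (isCompact_Icc.uniformContinuousOn_of_continuous hg) (ε / 2) (by positivity)
  have loc : ∀ u v, r ≤ u → u ≤ v → v ≤ s → v ≤ u + δ → ∀ η, 0 < η →
      ∀ᶠ x in atTop, |mer_F g u v x - ∫ t in u..v, g t| ≤ 2 * (ε / 2) * (v - u) + η :=
    fun u v a1 a2 a3 a4 η hη => mer_loc (h0.trans a1) a2 (by linarith)
      (hg.mono (Set.Icc_subset_Icc a1 a3)) (fun t ht => hu t ⟨a1.trans ht.1, ht.2.trans a3⟩ u
        ⟨a1, a2.trans a3⟩ (by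
          rw [Real.dist_eq, abs_of_nonneg (sub_nonneg.2 ht.1)]
          linarith [ht.2])) hη
  have key : ∀ (k : ℕ) (v : ℝ), r ≤ v → v ≤ s → v ≤ r + k * δ + δ → ∀ η, 0 < η →
      ∀ᶠ x in atTop, |mer_F g r v x - ∫ t in r..v, g t| ≤ 2 * (ε / 2) * (v - r) + η := by
    intro k
    induction k with
    | zero => exact fun v a1 a2 a3 => loc _ v le_rfl a1 a2 (by simpa using a3)
    | succ k ih =>
      intro v a1 a2 a3 η hη
      rcases le_total v (r + k * δ + δ) with a4 | a4
      · exact ih v a1 a2 a4 η hη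
      obtain ⟨u, hu'⟩ : ∃ u, u = r + k * δ + δ := ⟨_, rfl⟩
      have a5 : r ≤ u := by
        have : 0 ≤ k * δ := by positivity
        linarith
      rw [← hu'] at a4
      filter_upwards [ih u a5 (a4.trans a2) hu'.le (η / 2) (by positivity),
        loc u v a5 a4 a2 (by push_cast at a3; linarith) (η / 2) (by positivity)] with x b1 b2
      rw [mer_add g a5 a4, ← intervalIntegral.integral_add_adjacent_intervals (b := u)
        ((hg.mono (Set.Icc_subset_Icc_right (a4.trans a2))).intervalIntegrable_of_Icc a5)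
        ((hg.mono (Set.Icc_subset_Icc a5 a2)).intervalIntegrable_of_Icc a4), add_sub_add_comm]
      refine (abs_add_le _ _).trans ?_
      linarith
  obtain ⟨k, hk⟩ := exists_nat_ge ((s - r) / δ)
  rw [div_le_iff₀ hδ] at hk
  filter_upwards [key k s h1.le le_rfl (by linarith) (ε / 4) (by positivity)] with x hx
  rw [Real.dist_eq]
  have : ε * (s - r) ≤ ε * (1 / 2) := by gcongr
  linarith

theorem mer_cell {c : Cell} (h : c.ok) : Tendsto (fun x : ℝ => pm x c.ph) atTop (𝓝 c.ms) := by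
  obtain ⟨h0, h1, h2, hg⟩ := h
  have e : ∀ x, pm x c.ph = mer_F c.g c.r c.s x := fun x => by
    simp only [pm, mer_F, Cell.ph, sum_filter, ite_div, zero_div]
  simp only [e, Cell.ms]
  exact mer_gen h0 h1 (by linarith) (by linarith) hg

theorem mer_list (L : List Cell) (h : ∀ c ∈ L, c.ok) :
    Tendsto (fun x : ℝ => ((L.map Cell.ph).map (pm x)).prod) atTop (𝓝 (L.map Cell.ms).prod) := by
  induction L with
  | nil => simp
  | cons c L ih =>
    simp only [List.map_cons, List.prod_cons]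
    exact (mer_cell (h c (by simp))).mul (ih fun c hc => h c (by simp [hc]))

end Pool.Agent.Lib.MP_7d48f8_nt
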