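import Pool.Agent.Lib.MP_7d48f8_nt.B.Bil
import Pool.Agent.Lib.MP_7d48f8_nt.P.Lin
import Pool.Agent.Lib.MP_7d48f8_nt.P.Mer
import Pool.Agent.Lib.MP_7d48f8_nt.P.Cmp

/-! Product weights inside the admissible range. -/

noncomputable section

namespace Pool.Agent.Lib.MP_7d48f8_nt

open Finset MeasureTheory Filter Topology

theorem str_pow {σ τ ε : ℝ} (hε : 0 < ε) (h : σ + 2 * ε ≤ τ) :
    ∀ᶠ x : ℝ in atTop, (2 * x) ^ σ ≤ x ^ (τ - ε) := by
  filter_upwards [(tendsto_rpow_atTop hε).eventually_ge_atTop ((2 : ℝ) ^ σ),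
    eventually_ge_atTop 1] with x h1 hx
  have hx0 : 0 < x := one_pos.trans_le hx
  calc (2 * x) ^ σ = 2 ^ σ * x ^ σ := Real.mul_rpow zero_le_two hx0.le
    _ ≤ x ^ ε * x ^ σ := mul_le_mul_of_nonneg_right h1 (by positivity)
    _ = x ^ (ε + σ) := (Real.rpow_add hx0 _ _).symm
    _ ≤ _ := Real.rpow_le_rpow_of_exponent_le hx (by linarith)

theorem str_II {x : ℝ} (hx : 1 ≤ x) {n : ℕ} (hn : n ∈ II x) : n ≠ 0 ∧ (n : ℝ) ≤ 2 * x := by
  obtain ⟨h1, h2⟩ := (mem_II hx).1 hn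
  have h3 : √x ≤ x := Real.sqrt_le_iff.2 ⟨by linarith, by nlinarith⟩
  exact ⟨fun h => by rw [h, Nat.cast_zero] at h1; linarith, by linarith⟩

theorem str_nonneg {L : List Cell} (h : ∀ c ∈ L, c.ok) : 0 ≤ (L.map Cell.s).sum :=
  List.sum_nonneg fun t ht => by
    obtain ⟨c, hc, rfl⟩ := List.mem_map.1 ht
    exact (h c hc).1.trans (h c hc).2.1.le

theorem str_split {x : ℝ} (hx : 1 ≤ x) (La Lb : List Cell) (h : ∀ c ∈ La ++ Lb, c.ok)
    (w : ℝ → ℝ) : ∑ n ∈ II x, w ((n - x) / √x) * TT x ((La ++ Lb).map Cell.ph) n =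
      ∑ a ∈ Icc 1 ⌊(2 * x) ^ (La.map Cell.s).sum⌋₊, ∑ b ∈ Icc 1 ⌊(2 * x) ^ (Lb.map Cell.s).sum⌋₊,
        al x (La.map Cell.ph) a * al x (Lb.map Cell.ph) b * rr w x (a * b) +
      √x * ((((La ++ Lb).map Cell.ph).map (pm x)).prod * ∫ t, w t) := by
  rw [List.map_append, List.map_append, List.prod_append,
    ← al_main hx La (fun c hc => h c (List.mem_append_left _ hc)) le_rfl,
    ← al_main hx Lb (fun c hc => h c (List.mem_append_right _ hc)) le_rfl,
    sum_congr rfl fun n hn => congrArg _ (TT_bil x _ _ (str_II hx hn).1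
      (fun a ha => Nat.le_floor (al_supp hx La ha).2)
      fun b hb => Nat.le_floor (al_supp hx Lb hb).2)]
  simp only [mul_sum, sum_mul]
  rw [sum_comm, sum_comm (s := Icc 1 ⌊(2 * x) ^ (Lb.map Cell.s).sum⌋₊), ← sum_add_distrib]
  refine sum_congr rfl fun a _ => ?_
  rw [sum_comm, ← sum_add_distrib]
  refine sum_congr rfl fun b _ => ?_
  simp only [mul_ite, mul_zero]
  rw [← sum_filter, ← sum_mul, rr, NN, Nat.cast_mul]
  ring

theorem str_cut {x B σ : ℝ} (hx : 1 ≤ x) (hB : 1 ≤ B) {Φ : List (ℝ → ℝ)} (hΦ : Wt B Φ)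
    (hσ : σ ≤ 1) : ∃ α : ℕ → ℝ, (∀ a, |α a| ≤ 1) ∧
      ∀ a ∈ Icc 1 ⌊(2 * x) ^ σ⌋₊, al x Φ a = B ^ Φ.length * α a := by
  have h0 : 0 < B ^ Φ.length := by positivity
  refine ⟨fun a => if (a : ℝ) ≤ 2 * x then al x Φ a / B ^ Φ.length else 0, fun a => ?_,
    fun a ha => ?_⟩
  · beta_reduce
    split_ifs with h
    · rw [abs_div, abs_of_pos h0, div_le_one h0]
      exact al_bound hx (by linarith) hΦ h
    · simp
  · have h1 : (2 * x) ^ σ ≤ 2 * x := by
      simpa using Real.rpow_le_rpow_of_exponent_le (by linarith : 1 ≤ 2 * x) hσ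
    have h2 := (Nat.le_floor_iff (by positivity)).1 (mem_Icc.1 ha).2
    beta_reduce
    rw [if_pos (h2.trans h1), mul_div_cancel₀ _ h0.ne']

theorem str_ex : Tendsto (fun x : ℝ => (∑ n ∈ II x, ex x n) / √x) atTop (𝓝 0) := by
  refine tendsto_order.2 ⟨fun a ha => ?_, fun a ha => ?_⟩
  · filter_upwards [eventually_ge_atTop 1] with x hx
    exact ha.trans_le (div_nonneg (sum_nonneg fun n _ => ex_nonneg hx n) (Real.sqrt_nonneg _))
  · filter_upwards [ex_small (half_pos ha), eventually_gt_atTop 0] with x h hx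
    have h1 := Real.sqrt_pos.2 hx
    rw [div_lt_iff₀ h1]
    nlinarith

/-- `TT_bil` with `A = (2 x) ^ σa`, `B = (2 x) ^ σb`, `NN = rr + √x (∫ w) / d`; the main term is
`al_main` twice; the remainder is `bil` for the coefficients `al` cut off at `2 x` and divided by
the bound of `al_bound`, with `2 ε` the smaller one of the two margins. -/
theorem str_TT (La Lb : List Cell) (h : ∀ c ∈ La ++ Lb, c.ok) (ha : (La.map Cell.s).sum < 1 / 2)
    (hb : 3 * (La.map Cell.s).sum + 4 * (Lb.map Cell.s).sum < 2) {w : ℝ → ℝ} (hw : Bump w) :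
    Tendsto (fun x : ℝ => (∑ n ∈ II x, w ((n - x) / √x) * TT x ((La ++ Lb).map Cell.ph) n) / √x -
      (((La ++ Lb).map Cell.ph).map (pm x)).prod * ∫ t, w t) atTop (𝓝 0) := by
  have h1 := str_nonneg fun c hc => h c (List.mem_append_left Lb hc)
  have h2 := str_nonneg fun c hc => h c (List.mem_append_right La hc)
  obtain ⟨B, hB, hW, -⟩ := exists_wt _ h
  rw [List.map_append] at hW
  have hWa : Wt B (La.map Cell.ph) := fun φ hφ => hW φ (List.mem_append_left _ hφ)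
  have hWb : Wt B (Lb.map Cell.ph) := fun φ hφ => hW φ (List.mem_append_right _ hφ)
  obtain ⟨ε, hε, e1, e2⟩ : ∃ ε : ℝ, 0 < ε ∧ (La.map Cell.s).sum + 2 * ε ≤ 1 / 2 ∧
      3 * (La.map Cell.s).sum + 4 * (Lb.map Cell.s).sum + 2 * ε ≤ 2 := by
    have m1 := min_le_left (1 / 2 - (La.map Cell.s).sum)
      (2 - (3 * (La.map Cell.s).sum + 4 * (Lb.map Cell.s).sum))
    have m2 := min_le_right (1 / 2 - (La.map Cell.s).sum)
      (2 - (3 * (La.map Cell.s).sum + 4 * (Lb.map Cell.s).sum))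
    exact ⟨_, half_pos (lt_min (sub_pos.2 ha) (sub_pos.2 hb)), by linarith, by linarith⟩
  obtain ⟨η, C, hη, hC, hbil⟩ := bil hw hε
  have hlim := (tendsto_rpow_neg_atTop hη).const_mul
    (B ^ (La.map Cell.ph).length * B ^ (Lb.map Cell.ph).length * C)
  rw [mul_zero] at hlim
  refine squeeze_zero_norm' ?_ hlim
  filter_upwards [str_pow hε e1, str_pow hε e2, eventually_ge_atTop 1] with x p1 p2 hx
  have hx0 : 0 < x := one_pos.trans_le hx
  have hs := Real.sqrt_pos.2 hx0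
  have hx2 : 1 ≤ 2 * x := by linarith
  obtain ⟨α, hα, hα'⟩ := str_cut hx hB hWa (σ := (La.map Cell.s).sum) (by linarith)
  obtain ⟨β, hβ, hβ'⟩ := str_cut hx hB hWb (σ := (Lb.map Cell.s).sum) (by linarith)
  have p3 := hbil α β hα hβ x _ _ hx (Real.one_le_rpow hx2 h1) (Real.one_le_rpow hx2 h2) p1 (by
    refine le_of_eq_of_le ?_ p2
    rw [Real.rpow_add (by linarith), mul_comm 3, mul_comm 4, ← Real.rpow_mul_natCast (by linarith),
      ← Real.rpow_mul_natCast (by linarith)]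
    norm_num)
  have p4 : ∑ a ∈ Icc 1 ⌊(2 * x) ^ (La.map Cell.s).sum⌋₊,
      ∑ b ∈ Icc 1 ⌊(2 * x) ^ (Lb.map Cell.s).sum⌋₊,
        al x (La.map Cell.ph) a * al x (Lb.map Cell.ph) b * rr w x (a * b) =
      B ^ (La.map Cell.ph).length * B ^ (Lb.map Cell.ph).length *
        ∑ a ∈ Icc 1 ⌊(2 * x) ^ (La.map Cell.s).sum⌋₊,
          ∑ b ∈ Icc 1 ⌊(2 * x) ^ (Lb.map Cell.s).sum⌋₊, α a * β b * rr w x (a * b) := by
    simp only [mul_sum]
    refine sum_congr rfl fun a ha => sum_congr rfl fun b hb => ?_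
    rw [hα' a ha, hβ' b hb]
    ring
  rw [str_split hx La Lb h, add_div, mul_div_cancel_left₀ _ hs.ne', add_sub_cancel_right, p4,
    Real.norm_eq_abs, abs_div, abs_of_pos hs, abs_mul, abs_of_nonneg (by positivity),
    div_le_iff₀ hs, mul_assoc _ C, mul_assoc _ (C * _)]
  refine mul_le_mul_of_nonneg_left (p3.trans_eq ?_) (by positivity)
  rw [Real.sqrt_eq_rpow, mul_assoc, ← Real.rpow_add hx0]
  congr 2
  ring

/-- `str_TT`, `mer_list`, `cmp_TT`, `ex_small`. -/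
theorem asy_strict (La Lb : List Cell) (h : ∀ c ∈ La ++ Lb, c.ok) (ha : (La.map Cell.s).sum < 1 / 2)
    (hb : 3 * (La.map Cell.s).sum + 4 * (Lb.map Cell.s).sum < 2) :
    Asy (UL ((La ++ Lb).map Cell.ph)) ((La ++ Lb).map Cell.ms).prod := by
  intro w hw
  obtain ⟨B, hB, hW, -⟩ := exists_wt _ h
  have h1 := (str_TT La Lb h ha hb hw).add ((mer_list _ h).mul_const (∫ t, w t))
  simp only [sub_add_cancel, zero_add] at h1
  generalize (La ++ Lb).map Cell.ph = Φ at hW h1 ⊢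
  have h2 : Tendsto (fun x : ℝ => (∑ n ∈ II x, w ((n - x) / √x) * TT x Φ n) / √x -
      (∑ n ∈ II x, w ((n - x) / √x) * UL Φ (sp x n) (sz x)) / √x) atTop (𝓝 0) := by
    have h3 := str_ex.const_mul (2 * Φ.length * B ^ Φ.length)
    rw [mul_zero] at h3
    refine squeeze_zero_norm' ?_ h3
    filter_upwards [eventually_ge_atTop 1] with x hx
    rw [← sub_div, ← sum_sub_distrib, Real.norm_eq_abs, abs_div, abs_of_nonneg (Real.sqrt_nonneg x),
      ← mul_div_assoc, mul_sum]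
    refine div_le_div_of_nonneg_right ((abs_sum_le_sum_abs _ _).trans (sum_le_sum fun n hn => ?_))
      (Real.sqrt_nonneg x)
    rw [← mul_sub, abs_mul, abs_of_nonneg (hw.nonneg _)]
    exact (mul_le_of_le_one_left (abs_nonneg _) (hw.le_one _)).trans
      (cmp_TT hx (by linarith) hW (str_II hx hn).1 (str_II hx hn).2)
  simpa using h1.sub h2

end Pool.Agent.Lib.MP_7d48f8_nt
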