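import Pool.Agent.Lib.MP_7d48f8_nt.P.Slab
import Pool.Agent.Lib.MP_7d48f8_nt.P.Str

/-! Product weights in the closed admissible range. -/

noncomputable section

namespace Pool.Agent.Lib.MP_7d48f8_nt

open Finset MeasureTheory Filter Topology

theorem base_sum (L : List Cell) (h : ∀ c ∈ L, c.ok) {e : ℝ} (h0 : 0 < e) (h1 : e < 1) :
    (((L.map (Cell.cut e)).map Cell.s).sum = 0 ∧ (L.map Cell.s).sum = 0) ∨
      ((L.map (Cell.cut e)).map Cell.s).sum < (L.map Cell.s).sum := by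
  induction L with
  | nil => exact Or.inl ⟨rfl, rfl⟩
  | cons c L ih =>
    have hc := (cut_ok (h c List.mem_cons_self) h0 h1).2
    simp only [List.map_cons, List.sum_cons]
    rcases ih fun d hd => h d (List.mem_cons_of_mem _ hd) with ⟨h2, h3⟩ | h2
    · exact Or.inr (by linarith)
    · exact Or.inr (by linarith)

theorem base_ph {c : Cell} (h : c.ok) {e : ℝ} (h0 : 0 < e) (h1 : e < 1) (t : ℝ) :
    (c.cut e).ph t = c.ph t ∨ (c.cut e).ph t = 0 := by
  have hc := (cut_ok h h0 h1).2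
  by_cases ht : (c.cut e).r ≤ t ∧ t < (c.cut e).s
  · exact Or.inl ((if_pos ht).trans (if_pos ⟨ht.1, ht.2.trans hc⟩).symm)
  · exact Or.inr (if_neg ht)

theorem base_wt {B : ℝ} (hB : 0 ≤ B) (L : List Cell) (h : ∀ c ∈ L, c.ok)
    (hW : Wt B (L.map Cell.ph)) {e : ℝ} (h0 : 0 < e) (h1 : e < 1) :
    Wt B (L.map fun c => (c.cut e).ph) := by
  intro φ hφ
  obtain ⟨c, hc, rfl⟩ := List.mem_map.1 hφ
  obtain ⟨h2, h3⟩ := hW _ (List.mem_map_of_mem hc)
  refine ⟨fun t ht => ?_, fun t ht => ?_⟩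
  · rcases base_ph (h c hc) h0 h1 t with h4 | h4 <;> rw [h4]
    · exact h2 t ht
    · rw [abs_zero]; positivity
  · rcases base_ph (h c hc) h0 h1 t with h4 | h4 <;> rw [h4]
    exact h3 t ht

theorem base_slab (L : List Cell) (h : ∀ c ∈ L, c.ok) {B e : ℝ}
    (hB : ∀ c ∈ L, ∀ t ∈ Set.Icc c.r c.s, |c.g t| ≤ B) (h0 : 0 < e) (h1 : e < 1) :
    ∀ᶠ x : ℝ in atTop, ∑ n ∈ II x,
      (L.map fun c => ∑ p ∈ sp x n, |c.ph (sz x p) - (c.cut e).ph (sz x p)|).sum ≤
        L.length * ((B * e + e) * √x) := by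
  induction L with
  | nil => simp
  | cons c L ih =>
    filter_upwards [ih (fun d hd => h d (List.mem_cons_of_mem _ hd))
      (fun d hd => hB d (List.mem_cons_of_mem _ hd)),
      slab_cut (h c List.mem_cons_self) (hB c List.mem_cons_self) h0 h1 h0] with x h2 h3
    simp only [List.map_cons, List.sum_cons, Finset.sum_add_distrib, List.length_cons]
    push_cast
    linarith

/-- `asy_approx` with the cells `Cell.cut e` (`asy_strict`, `tendsto_ms_cut`, `UL_diff`,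
`slab_cut`). -/
theorem good_base (La Lb : List Cell) (h : ∀ c ∈ La ++ Lb, c.ok) (ha : (La.map Cell.s).sum ≤ 1 / 2)
    (hb : 3 * (La.map Cell.s).sum + 4 * (Lb.map Cell.s).sum ≤ 2) :
    Good (UL ((La ++ Lb).map Cell.ph)) ((La ++ Lb).map Cell.ms).prod := by
  obtain ⟨B, hB, hW, hg⟩ := exists_wt _ h
  have hB0 : 0 ≤ B := zero_le_one.trans hB
  refine ⟨reg_UL hB0 hW, asy_approx fun δ hδ => ?_⟩
  set C : ℝ := B ^ (La ++ Lb).length * ((La ++ Lb).length * (B + 1)) with hC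
  have e1 := (Metric.tendsto_nhds.1 (tendsto_ms_cut _ h)) δ hδ
  have e2 : ∀ᶠ e : ℝ in 𝓝[>] 0, C * e < δ := by
    have : Tendsto (fun e : ℝ => C * e) (𝓝 0) (𝓝 (C * 0)) := tendsto_id.const_mul C
    rw [mul_zero] at this
    exact (this.eventually_lt_const hδ).filter_mono nhdsWithin_le_nhds
  have e3 : ∀ᶠ e : ℝ in 𝓝[>] 0, e ∈ Set.Ioo (0 : ℝ) 1 := Ioo_mem_nhdsGT one_pos
  obtain ⟨e, h1, h2, h3, h4⟩ := (e1.and (e2.and e3)).exists
  have hok : ∀ c ∈ La.map (Cell.cut e) ++ Lb.map (Cell.cut e), c.ok := by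
    intro c hc
    rw [← List.map_append] at hc
    obtain ⟨d, hd, rfl⟩ := List.mem_map.1 hc
    exact (cut_ok (h d hd) h3 h4).1
  have sa := base_sum La (fun c hc => h c (List.mem_append_left _ hc)) h3 h4
  have sb := base_sum Lb (fun c hc => h c (List.mem_append_right _ hc)) h3 h4
  have hA := asy_strict (La.map (Cell.cut e)) (Lb.map (Cell.cut e)) hok
    (by rcases sa with ⟨s1, s2⟩ | s1 <;> linarith)
    (by rcases sa with ⟨s1, s2⟩ | s1 <;> rcases sb with ⟨s3, s4⟩ | s3 <;> linarith)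
  rw [← List.map_append] at hA
  refine ⟨_, _, hA, (Real.dist_eq _ _ ▸ h1).le, ?_⟩
  filter_upwards [base_slab _ h hg h3 h4, eventually_ge_atTop 1] with x hx hx1
  have hs : √x ≤ x := Real.sqrt_le_iff.2 ⟨by linarith, by nlinarith⟩
  rw [List.map_map]
  refine (Finset.sum_le_sum fun n hn => UL_diff hB _ Cell.ph (fun c => (c.cut e).ph) hW
    (base_wt hB0 _ h hW h3 h4) (pat_sp hx1 (by linarith [((mem_II hx1).1 hn).2]))).trans ?_
  rw [← Finset.mul_sum]
  refine (mul_le_mul_of_nonneg_left hx (pow_nonneg hB0 _)).trans ?_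
  refine le_trans (le_of_eq ?_) (mul_le_mul_of_nonneg_right h2.le (Real.sqrt_nonneg x))
  rw [hC]
  ring

theorem good_perm (L La Lb : List Cell) (hL : L.Perm (La ++ Lb)) (h : ∀ c ∈ L, c.ok)
    (ha : (La.map Cell.s).sum ≤ 1 / 2)
    (hb : 3 * (La.map Cell.s).sum + 4 * (Lb.map Cell.s).sum ≤ 2) :
    Good (UL (L.map Cell.ph)) (L.map Cell.ms).prod := by
  rw [(hL.map Cell.ms).prod_eq, show UL (L.map Cell.ph) = UL ((La ++ Lb).map Cell.ph) from
    funext fun S => funext fun t => UL_perm (hL.map _) S t]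
  exact good_base La Lb (fun c hc => h c (hL.mem_iff.2 hc)) ha hb

end Pool.Agent.Lib.MP_7d48f8_nt
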