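import Pool.Agent.Lib.MP_7d48f8_nt.B.Dec
import Pool.Agent.Lib.MP_7d48f8_nt.P.Exc

/-! From a certificate to a large prime factor. -/

noncomputable section

namespace Pool.Agent.Lib.MP_7d48f8_nt

open Finset MeasureTheory Filter Topology

/-- If the gap `z - ∑ t` is below `1 / 4` (and positive) add one new element of that size
(`Function.update`, `Reg.congr`, `Reg.lip`); otherwise use the bound. -/
theorem fill_gap {W : Finset ℕ → (ℕ → ℝ) → ℝ} (hW : Reg W) : ∃ C : ℝ, 0 ≤ C ∧ ∀ z : ℝ, z ≤ 1 →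
    (∀ S t, Pat S t → ∑ i ∈ S, t i = z → W S t ≤ 0) →
    ∀ S t, Pat S t → ∑ i ∈ S, t i ≤ z → W S t ≤ C * (z - ∑ i ∈ S, t i) := by
  obtain ⟨C1, h1⟩ := hW.bdd
  obtain ⟨C2, h2⟩ := hW.lip
  refine ⟨4 * |C1| + |C2|, by positivity, fun z hz hz0 S t hS hle => ?_⟩
  have a1 := abs_nonneg C1
  have a2 := abs_nonneg C2
  rcases hle.eq_or_lt with he | hlt
  · rw [he, sub_self, mul_zero]
    exact hz0 S t hS he
  by_cases hg : z - ∑ i ∈ S, t i < 1 / 4
  · obtain ⟨i, hi⟩ := Infinite.exists_notMem_finset S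
    have hne : ∀ j ∈ S, Function.update t i (z - ∑ i ∈ S, t i) j = t j := fun j hj =>
      Function.update_of_ne (fun e : j = i => hi (e ▸ hj)) _ _
    have hsum : ∑ j ∈ insert i S, Function.update t i (z - ∑ i ∈ S, t i) j = z := by
      rw [sum_insert hi, Function.update_self, sum_congr rfl hne]
      ring
    have hP : Pat (insert i S) (Function.update t i (z - ∑ i ∈ S, t i)) := by
      refine ⟨fun j hj => ?_, hsum.le.trans hz⟩
      rcases mem_insert.1 hj with rfl | hj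
      · rw [Function.update_self]
        constructor <;> linarith
      · rw [hne j hj]
        exact hS.1 j hj
    have e1 := hz0 _ _ hP hsum
    have e2 := h2 S _ i hi hP
    rw [Function.update_self, hW.congr S _ t hne] at e2
    have e3 := (abs_le.1 e2).1
    have e4 : C2 * (z - ∑ i ∈ S, t i) ≤ |C2| * (z - ∑ i ∈ S, t i) :=
      mul_le_mul_of_nonneg_right (le_abs_self _) (by linarith)
    nlinarith
  · have e1 := (le_abs_self _).trans ((h1 S t hS).trans (le_abs_self C1))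
    rw [not_lt] at hg
    nlinarith

/-- If all prime factors of `n` have size below `1 / 2` the sizes add up to `sz x n - ex x n`.
Otherwise exactly one prime factor has size at least `1 / 2` (as `n < 2 x`), and its size is at most
`1 - τ`.  In both cases use `1 - sz x n ≤ log 2 / log (2 x)`. -/
theorem point_le {W : Finset ℕ → (ℕ → ℝ) → ℝ} (hW : Reg W) {τ : ℝ} (hτ : τ ≤ 1 / 2)
    (h1 : ∀ S t, Pat S t → τ ≤ ∑ i ∈ S, t i → ∑ i ∈ S, t i ≤ 1 / 2 → W S t ≤ 0)
    (h2 : ∀ S t, Pat S t → ∑ i ∈ S, t i = 1 → W S t ≤ 0) :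
    ∃ C : ℝ, 0 ≤ C ∧ ∀ x : ℝ, 4 ≤ x → ∀ n ∈ II x,
      (∀ p : ℕ, p.Prime → p ∣ n → (p : ℝ) ≤ x ^ (1 - τ)) →
      W (sp x n) (sz x) ≤ C * (ex x n + 1 / Real.log (2 * x)) := by
  obtain ⟨C, hC, hg⟩ := fill_gap hW
  refine ⟨C, hC, fun x hx n hn hp => ?_⟩
  have hx1 : (1 : ℝ) ≤ x := by linarith
  obtain ⟨hn1, hn2⟩ := (mem_II hx1).1 hn
  have hs : √x < x := by
    rw [Real.sqrt_lt' (by linarith)]
    nlinarith
  have hn3 : (n : ℝ) < 2 * x := by linarith
  have hL : 0 < Real.log (2 * x) := Real.log_pos (by linarith)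
  have hl2 : Real.log (2 * x) = Real.log 2 + Real.log x :=
    Real.log_mul (by norm_num) (by linarith)
  have h21 : Real.log 2 ≤ 1 := by
    have := Real.log_two_lt_d9
    linarith
  have h20 : 0 < Real.log 2 := Real.log_pos (by norm_num)
  have hlx : 0 ≤ Real.log x := Real.log_nonneg hx1
  have hlt : sz x n < 1 := by
    rw [sz, div_lt_one hL]
    exact Real.log_lt_log (by linarith) hn3
  have hge : 1 - sz x n ≤ 1 / Real.log (2 * x) := by
    have : Real.log x ≤ Real.log n := Real.log_le_log (by linarith) hn1.le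
    rw [sz, sub_le_iff_le_add, ← add_div, le_div_iff₀ hL]
    linarith
  have hP := pat_sp hx1 hn3.le
  have hex := ex_nonneg hx1 n
  have hz : ∀ p : ℕ, 0 ≤ sz x p := fun p => div_nonneg (Real.log_natCast_nonneg p) hL.le
  have hσ : 0 ≤ ∑ p ∈ sp x n, sz x p := sum_nonneg fun p _ => hz p
  have hsplit : ∑ p ∈ sp x n, sz x p +
      ∑ p ∈ n.primeFactors.filter (fun p => ¬ sz x p < 1 / 2), sz x p = sz x n - ex x n := by
    rw [sp, sum_filter_add_sum_filter_not, ex]
    ring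
  have h0 : 0 < 1 / Real.log (2 * x) := by positivity
  rcases (n.primeFactors.filter fun p => ¬ sz x p < 1 / 2).eq_empty_or_nonempty with he | ⟨q, hq⟩
  · rw [he, sum_empty] at hsplit
    refine (hg 1 le_rfl h2 _ _ hP hP.2).trans (mul_le_mul_of_nonneg_left ?_ hC)
    linarith
  have hq' := mem_filter.1 hq
  have hq1 : 1 / 2 ≤ sz x q := not_lt.1 hq'.2
  have hq2 : sz x q ≤ 1 - τ := by
    have hqp := Nat.prime_of_mem_primeFactors hq'.1
    have e1 := hp q hqp (Nat.dvd_of_mem_primeFactors hq'.1)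
    have e2 := Real.log_le_log (by exact_mod_cast hqp.pos) e1
    rw [Real.log_rpow (by linarith)] at e2
    rw [sz, div_le_iff₀ hL, hl2]
    nlinarith
  rw [← add_sum_erase _ _ hq] at hsplit
  rcases ((n.primeFactors.filter fun p => ¬ sz x p < 1 / 2).erase q).eq_empty_or_nonempty with
    he | ⟨r, hr⟩
  · rw [he, sum_empty] at hsplit
    by_cases hc : τ ≤ ∑ p ∈ sp x n, sz x p
    · exact (h1 _ _ hP hc (by linarith)).trans (by positivity)
    · refine (hg τ (by linarith) (fun S t hS e => h1 S t hS e.ge (e.le.trans hτ)) _ _ hP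
        (not_le.1 hc).le).trans (mul_le_mul_of_nonneg_left ?_ hC)
      linarith
  · have e1 : 1 / 2 ≤ sz x r := not_lt.1 (mem_filter.1 (mem_of_mem_erase hr)).2
    have e2 := single_le_sum (f := sz x) (fun p _ => hz p) hr
    linarith

/-- By contradiction: the mean value would be at most `δ` for every `δ > 0` along an unbounded set
of `x` (`exists_bump`, `point_le`, `ex_small`, `card_mult` with `d = 1`). -/
theorem final {W : Finset ℕ → (ℕ → ℝ) → ℝ} {m τ : ℝ} (hW : Good W m) (hm : 0 < m) (hτ : τ ≤ 1 / 2)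
    (h1 : ∀ S t, Pat S t → τ ≤ ∑ i ∈ S, t i → ∑ i ∈ S, t i ≤ 1 / 2 → W S t ≤ 0)
    (h2 : ∀ S t, Pat S t → ∑ i ∈ S, t i = 1 → W S t ≤ 0) :
    ∀ᶠ x : ℝ in atTop, ∃ n p : ℕ, x < n ∧ (n : ℝ) ≤ x + √x ∧ p.Prime ∧ p ∣ n ∧ x ^ (1 - τ) < p := by
  obtain ⟨w, hw⟩ := exists_bump
  obtain ⟨C, hC, hp⟩ := point_le hW.1 hτ h1 h2
  have hI : 0 < m * ∫ t, w t := mul_pos hm hw.pos
  obtain ⟨δ, hδ, hδ'⟩ : ∃ δ : ℝ, 0 < δ ∧ 3 * C * δ < (m * ∫ t, w t) / 2 := by
    refine ⟨(m * ∫ t, w t) / 2 / (3 * C + 1), by positivity, ?_⟩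
    rw [← mul_div_assoc, div_lt_iff₀ (by positivity)]
    nlinarith
  have e1 := (hW.2 w hw).eventually (lt_mem_nhds (half_lt_self hI))
  have e2 : ∀ᶠ x : ℝ in atTop, 1 / δ ≤ Real.log (2 * x) :=
    (Real.tendsto_log_atTop.comp (tendsto_id.const_mul_atTop two_pos)).eventually_ge_atTop _
  filter_upwards [e1, e2, ex_small hδ, eventually_ge_atTop (4 : ℝ)] with x f1 f2 f3 hx
  by_contra hcon
  have hx1 : (1 : ℝ) ≤ x := by linarith
  have hs : 2 ≤ √x := Real.le_sqrt_of_sq_le (by linarith)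
  have hL : 0 < Real.log (2 * x) := Real.log_pos (by linarith)
  have f4 : 1 / Real.log (2 * x) ≤ δ := by
    rw [div_le_iff₀ hL]
    rw [div_le_iff₀ hδ] at f2
    linarith
  have f5 : ((II x).card : ℝ) ≤ 2 * √x := by
    have := card_mult hx1 (d := 1) one_pos
    simp only [one_dvd, filter_true, Nat.cast_one, div_one] at this
    linarith
  have f6 : ∑ n ∈ II x, w ((n - x) / √x) * W (sp x n) (sz x) ≤
      ∑ n ∈ II x, (C * ex x n + C * δ) := by
    refine sum_le_sum fun n hn => ?_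
    have hn' := (mem_II hx1).1 hn
    have g1 := hp x hx n hn fun p hpp hpn => by
      by_contra hlt
      exact hcon ⟨n, p, hn'.1, hn'.2, hpp, hpn, not_le.1 hlt⟩
    have g2 : W (sp x n) (sz x) ≤ C * ex x n + C * δ := by
      rw [← mul_add]
      exact g1.trans (mul_le_mul_of_nonneg_left (by linarith) hC)
    have g3 : 0 ≤ C * ex x n + C * δ :=
      add_nonneg (mul_nonneg hC (ex_nonneg hx1 n)) (by positivity)
    exact (mul_le_mul_of_nonneg_left g2 (hw.nonneg _)).trans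
      (mul_le_of_le_one_left g3 (hw.le_one _))
  rw [sum_add_distrib, ← mul_sum, sum_const, nsmul_eq_mul] at f6
  rw [lt_div_iff₀ (by linarith)] at f1
  have f7 := mul_le_mul_of_nonneg_left f3 hC
  have f8 := mul_le_mul_of_nonneg_right f5 (show 0 ≤ C * δ by positivity)
  have f9 := mul_lt_mul_of_pos_right hδ' (show 0 < √x by linarith)
  nlinarith

end Pool.Agent.Lib.MP_7d48f8_nt
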