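import Pool.Agent.Lib.MP_7d48f8_nt.P.Defs

/-! The sums over sequences of distinct elements. -/

noncomputable section

namespace Pool.Agent.Lib.MP_7d48f8_nt

open Finset MeasureTheory Filter Topology

theorem UL_congr (Φ : List (ℝ → ℝ)) (S : Finset ℕ) (t t' : ℕ → ℝ) (h : ∀ i ∈ S, t i = t' i) :
    UL Φ S t = UL Φ S t' := by
  induction Φ generalizing S with
  | nil => rfl
  | cons φ Φ ih =>
    refine sum_congr rfl fun p hp => ?_
    rw [h p hp, ih _ fun i hi => h i (mem_of_mem_erase hi)]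

theorem pat_subset {S T : Finset ℕ} {t : ℕ → ℝ} (h : Pat S t) (hT : T ⊆ S) : Pat T t := by
  exact ⟨fun i hi => h.1 i (hT hi),
    (sum_le_sum_of_subset_of_nonneg hT fun i hi _ => (h.1 i hi).1.le).trans h.2⟩

theorem reg_sum {A B : ℝ} (hA : 0 ≤ A) (hB : 0 ≤ B) {φ : ℝ → ℝ} (hφ : ∀ t, 0 < t → |φ t| ≤ B * t)
    {S : Finset ℕ} {t u : ℕ → ℝ} (h : Pat S t) (hu : ∀ p ∈ S, |u p| ≤ A) :
    |∑ p ∈ S, φ (t p) * u p| ≤ B * A := by
  calc |∑ p ∈ S, φ (t p) * u p| ≤ ∑ p ∈ S, B * A * t p := by
        refine (abs_sum_le_sum_abs _ _).trans (sum_le_sum fun p hp => ?_)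
        rw [abs_mul, mul_right_comm]
        exact mul_le_mul (hφ _ (h.1 p hp).1) (hu p hp) (abs_nonneg _)
          (mul_nonneg hB (h.1 p hp).1.le)
    _ ≤ B * A := by
        rw [← mul_sum]
        exact mul_le_of_le_one_right (mul_nonneg hB hA) h.2

theorem reg_tail {B : ℝ} {φ : ℝ → ℝ} {Φ : List (ℝ → ℝ)} (h : Wt B (φ :: Φ)) : Wt B Φ :=
  fun ψ hψ => h ψ (List.mem_cons_of_mem _ hψ)

/-- Induction on `Φ`; the sizes add up to at most `1`. -/
theorem UL_bound {B : ℝ} (hB : 0 ≤ B) {Φ : List (ℝ → ℝ)} (hΦ : Wt B Φ) {S : Finset ℕ} {t : ℕ → ℝ}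
    (h : Pat S t) : |UL Φ S t| ≤ B ^ Φ.length := by
  induction Φ generalizing S with
  | nil => simp [UL]
  | cons φ Φ ih =>
    rw [List.length_cons, pow_succ']
    exact reg_sum (pow_nonneg hB _) hB (hΦ φ List.mem_cons_self).1 h fun p _ =>
      ih (reg_tail hΦ) (pat_subset h (erase_subset _ _))

/-- Induction on `Φ`: the term `p = i` is at most `B (t i) B ^ k`, and for `p ∈ S` one has
`(insert i S).erase p = insert i (S.erase p)`. -/
theorem UL_insert {B : ℝ} (hB : 0 ≤ B) {Φ : List (ℝ → ℝ)} (hΦ : Wt B Φ) {S : Finset ℕ} {t : ℕ → ℝ}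
    {i : ℕ} (hi : i ∉ S) (h : Pat (insert i S) t) :
    |UL Φ (insert i S) t - UL Φ S t| ≤ Φ.length * B ^ Φ.length * t i := by
  have hti := (h.1 i (mem_insert_self _ _)).1
  have hS := pat_subset h (subset_insert i S)
  induction Φ generalizing S with
  | nil => simp [UL]
  | cons φ Φ ih =>
    have hφ := (hΦ φ List.mem_cons_self).1
    have e : UL (φ :: Φ) (insert i S) t - UL (φ :: Φ) S t = φ (t i) * UL Φ S t +
        ∑ p ∈ S, φ (t p) * (UL Φ (insert i (S.erase p)) t - UL Φ (S.erase p) t) := by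
      simp only [UL, sum_insert hi, erase_insert hi, mul_sub, sum_sub_distrib, add_sub_assoc]
      congr 2
      refine sum_congr rfl fun p hp => ?_
      rw [erase_insert_of_ne (ne_of_mem_of_not_mem hp hi).symm]
    have h1 : |φ (t i) * UL Φ S t| ≤ B * t i * B ^ Φ.length := by
      rw [abs_mul]
      exact mul_le_mul (hφ _ hti) (UL_bound hB (reg_tail hΦ) hS) (abs_nonneg _) (by positivity)
    have h2 := reg_sum (A := Φ.length * B ^ Φ.length * t i) (by positivity) hB hφ hS fun p _ =>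
      ih (reg_tail hΦ) (fun hp => hi (mem_of_mem_erase hp))
        (pat_subset h (insert_subset_insert i (erase_subset p S)))
        (pat_subset hS (erase_subset p S))
    rw [e]
    refine (abs_add_le _ _).trans ((add_le_add h1 h2).trans_eq ?_)
    rw [List.length_cons]
    push_cast
    ring

theorem reg_UL {B : ℝ} (hB : 0 ≤ B) {Φ : List (ℝ → ℝ)} (hΦ : Wt B Φ) : Reg (UL Φ) := by
  exact ⟨UL_congr Φ, ⟨_, fun _ _ h => UL_bound hB hΦ h⟩, ⟨_, fun _ _ _ hi h => UL_insert hB hΦ hi h⟩⟩

/-- Induction on the permutation; for a swap exchange the two sums (`erase_right_comm`). -/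
theorem UL_perm {Φ Ψ : List (ℝ → ℝ)} (h : Φ.Perm Ψ) (S : Finset ℕ) (t : ℕ → ℝ) :
    UL Φ S t = UL Ψ S t := by
  induction h generalizing S with
  | nil => rfl
  | cons φ _ ih => simp only [UL, ih]
  | swap φ ψ Φ =>
    simp only [UL, mul_sum]
    rw [sum_comm' (t' := S) (s' := fun q => S.erase q) fun p q => by
      simp only [mem_erase, ne_eq, eq_comm (a := q)]
      tauto]
    refine sum_congr rfl fun q _ => sum_congr rfl fun p _ => ?_
    rw [erase_right_comm, mul_left_comm]
  | trans _ _ ih ih' => rw [ih, ih']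

/-- Induction on `L`, generalizing `S`: `φ U - ψ V = (φ - ψ) U + ψ (U - V)`, and the sums over
`S.erase p` are at most the sums over `S`. -/
theorem UL_diff {ι : Type*} {B : ℝ} (hB : 1 ≤ B) (L : List ι) (f g : ι → ℝ → ℝ)
    (hf : Wt B (L.map f)) (hg : Wt B (L.map g)) {S : Finset ℕ} {t : ℕ → ℝ} (h : Pat S t) :
    |UL (L.map f) S t - UL (L.map g) S t| ≤
      B ^ L.length * (L.map fun c => ∑ p ∈ S, |f c (t p) - g c (t p)|).sum := by
  have hB0 : 0 ≤ B := zero_le_one.trans hB
  induction L generalizing S with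
  | nil => simp [UL]
  | cons c L ih =>
    rw [List.map_cons] at hf hg
    have e : UL ((c :: L).map f) S t - UL ((c :: L).map g) S t =
        ∑ p ∈ S, (f c (t p) - g c (t p)) * UL (L.map f) (S.erase p) t +
        ∑ p ∈ S, g c (t p) * (UL (L.map f) (S.erase p) t - UL (L.map g) (S.erase p) t) := by
      simp only [List.map_cons, UL, ← sum_sub_distrib, ← sum_add_distrib]
      exact sum_congr rfl fun p _ => by ring
    have h1 : |∑ p ∈ S, (f c (t p) - g c (t p)) * UL (L.map f) (S.erase p) t| ≤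
        B ^ (L.length + 1) * ∑ p ∈ S, |f c (t p) - g c (t p)| := by
      rw [mul_sum]
      refine (abs_sum_le_sum_abs _ _).trans (sum_le_sum fun p _ => ?_)
      rw [abs_mul, mul_comm]
      refine mul_le_mul_of_nonneg_right ?_ (abs_nonneg _)
      have := UL_bound hB0 (reg_tail hf) (pat_subset h (erase_subset p S))
      rw [List.length_map] at this
      exact this.trans (pow_le_pow_right₀ hB (Nat.le_succ _))
    have h0 : 0 ≤ (L.map fun c => ∑ p ∈ S, |f c (t p) - g c (t p)|).sum :=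
      List.sum_nonneg fun a ha => by
        obtain ⟨c, -, rfl⟩ := List.mem_map.1 ha
        positivity
    have h2 := reg_sum (A := B ^ L.length * (L.map fun c => ∑ p ∈ S, |f c (t p) - g c (t p)|).sum)
      (u := fun p => UL (L.map f) (S.erase p) t - UL (L.map g) (S.erase p) t)
      (by positivity) hB0 (hg _ List.mem_cons_self).1 h fun p _ =>
      (ih (reg_tail hf) (reg_tail hg) (pat_subset h (erase_subset p S))).trans
        (mul_le_mul_of_nonneg_left (List.sum_le_sum fun c _ =>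
          sum_le_sum_of_subset_of_nonneg (erase_subset p S) fun _ _ _ => abs_nonneg _)
          (pow_nonneg hB0 _))
    rw [e]
    refine (abs_add_le _ _).trans ((add_le_add h1 h2).trans_eq ?_)
    rw [List.map_cons, List.sum_cons, List.length_cons]
    ring

end Pool.Agent.Lib.MP_7d48f8_nt
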