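import Pool.Agent.Lib.MP_7d48f8_nt.P.Mer
import Pool.Agent.Lib.MP_7d48f8_nt.P.Exc

/-! Prime factors in a thin range of sizes are rare. -/

noncomputable section

namespace Pool.Agent.Lib.MP_7d48f8_nt

open Finset MeasureTheory Filter Topology

theorem slab_sz_nonneg {x : ℝ} (hx : 1 ≤ x) (p : ℕ) : 0 ≤ sz x p :=
  div_nonneg (Real.log_natCast_nonneg p) (Real.log_nonneg (by linarith))

theorem slab_err {x : ℝ} (hx : 1 ≤ x) (P : Finset ℕ) (hP : ∀ p ∈ P, p.Prime ∧ sz x p < 1 / 2) :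
    ∑ p ∈ P, sz x p ≤ Real.log 4 * √2 * √x / Real.log (2 * x) := by
  have hL : 0 < Real.log (2 * x) := Real.log_pos (by linarith)
  have hsub : P ⊆ Nat.primesLE ⌊√(2 * x)⌋₊ := by
    intro p hp
    obtain ⟨h1, h2⟩ := hP p hp
    refine Nat.mem_primesLE.2 ⟨Nat.le_floor ?_, h1⟩
    have hp0 : (0 : ℝ) < p := by exact_mod_cast h1.pos
    rw [sz, div_lt_iff₀ hL] at h2
    have h3 : Real.log p ≤ Real.log (√(2 * x)) := by
      rw [Real.log_sqrt (by linarith)]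
      linarith
    exact (Real.log_le_log_iff hp0 (Real.sqrt_pos.2 (by linarith))).1 h3
  have h4 : ∑ p ∈ P, Real.log p ≤ Real.log 4 * √2 * √x := by
    calc ∑ p ∈ P, Real.log p ≤ ∑ p ∈ Nat.primesLE ⌊√(2 * x)⌋₊, Real.log p :=
          sum_le_sum_of_subset_of_nonneg hsub fun p _ _ => Real.log_natCast_nonneg p
      _ = Chebyshev.theta (√(2 * x)) := (Chebyshev.theta_eq_sum_primesLE _).symm
      _ ≤ Real.log 4 * √(2 * x) := Chebyshev.theta_le_log4_mul_x (Real.sqrt_nonneg _)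
      _ = Real.log 4 * √2 * √x := by rw [Real.sqrt_mul (by norm_num), mul_assoc]
  simp only [sz]
  rw [← sum_div]
  exact div_le_div_of_nonneg_right h4 hL.le

/-- Exchange the sums; `card_mult`, `mer_slab`, and the sum of `log p` over `p < √(2 x)` is at most
`log 4 * √(2 x)` (`Chebyshev.theta_le_log4_mul_x`). -/
theorem slab_sum {a b δ : ℝ} (ha : 0 ≤ a) (hab : a ≤ b) (hb : b ≤ 1 / 2) (hδ : 0 < δ) :
    ∀ᶠ x : ℝ in atTop, ∑ n ∈ II x, ∑ p ∈ (sp x n).filter (fun p => a ≤ sz x p ∧ sz x p < b), sz x p ≤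
      (b - a + δ) * √x := by
  have h1 := (mer_slab ha hab (hb.trans (by norm_num))).eventually
    (gt_mem_nhds (show b - a < b - a + δ / 2 by linarith))
  have h2 : ∀ᶠ x : ℝ in atTop, 4 * (Real.log 4 * √2) / δ ≤ Real.log (2 * x) :=
    (Real.tendsto_log_atTop.comp (tendsto_id.const_mul_atTop (by norm_num : (0 : ℝ) < 2))).eventually
      (eventually_ge_atTop _)
  filter_upwards [h1, h2, eventually_ge_atTop (1 : ℝ)] with x h1 h2 hx
  have hL : 0 < Real.log (2 * x) := Real.log_pos (by linarith)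
  set P := (Nat.primesLE ⌊2 * x⌋₊).filter (fun p => a ≤ sz x p ∧ sz x p < b) with hP
  have hs : √x ≤ x := by
    rw [Real.sqrt_le_left (by linarith)]
    nlinarith
  have hs0 : 0 ≤ √x := Real.sqrt_nonneg x
  have e1 : ∑ n ∈ II x, ∑ p ∈ (sp x n).filter (fun p => a ≤ sz x p ∧ sz x p < b), sz x p ≤
      ∑ n ∈ II x, ∑ p ∈ P, if p ∣ n then sz x p else 0 := by
    refine sum_le_sum fun n hn => ?_
    rw [← sum_filter]
    refine sum_le_sum_of_subset_of_nonneg ?_ fun p _ _ => slab_sz_nonneg hx p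
    intro p hp
    obtain ⟨hp1, hp2⟩ := mem_filter.1 hp
    obtain ⟨hp3, -⟩ := mem_filter.1 hp1
    obtain ⟨q1, q2, q3⟩ := Nat.mem_primeFactors.1 hp3
    refine mem_filter.2 ⟨mem_filter.2 ⟨Nat.mem_primesLE.2 ⟨Nat.le_floor ?_, q1⟩, hp2⟩, q2⟩
    have q4 : (p : ℝ) ≤ n := by exact_mod_cast Nat.le_of_dvd (Nat.pos_of_ne_zero q3) q2
    have q5 := ((mem_II hx).1 hn).2
    linarith
  have e2 : (∑ n ∈ II x, ∑ p ∈ P, if p ∣ n then sz x p else 0) ≤
      ∑ p ∈ P, (√x * (sz x p / p) + 2 * sz x p) := by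
    rw [sum_comm]
    refine sum_le_sum fun p hp => ?_
    have hp0 : 0 < p := (Nat.mem_primesLE.1 (mem_filter.1 hp).1).2.pos
    rw [← sum_filter, sum_const, nsmul_eq_mul]
    calc _ ≤ (√x / p + 2) * sz x p :=
          mul_le_mul_of_nonneg_right (card_mult hx hp0) (slab_sz_nonneg hx p)
      _ = _ := by ring
  have e3 := slab_err hx P fun p hp =>
    ⟨(Nat.mem_primesLE.1 (mem_filter.1 hp).1).2, (mem_filter.1 hp).2.2.trans_le hb⟩
  have e4 : Real.log 4 * √2 * √x / Real.log (2 * x) ≤ δ / 4 * √x := by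
    rw [div_le_iff₀ hL]
    rw [div_le_iff₀ hδ] at h2
    nlinarith [mul_le_mul_of_nonneg_right h2 hs0]
  rw [sum_add_distrib, ← mul_sum, ← mul_sum] at e2
  have e5 := mul_le_mul_of_nonneg_left h1.le hs0
  nlinarith

/-- The two weights differ only on `[s - e (s - r), s)`, by at most `B t`. -/
theorem slab_cut {c : Cell} (h : c.ok) {B e δ : ℝ} (hB : ∀ t ∈ Set.Icc c.r c.s, |c.g t| ≤ B)
    (h0 : 0 < e) (h1 : e < 1) (hδ : 0 < δ) :
    ∀ᶠ x : ℝ in atTop, ∑ n ∈ II x, ∑ p ∈ sp x n, |c.ph (sz x p) - (c.cut e).ph (sz x p)| ≤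
      (B * e + δ) * √x := by
  obtain ⟨hr, hrs, hs, -⟩ := h
  have hB0 : 0 ≤ B := (abs_nonneg _).trans (hB c.r ⟨le_rfl, hrs.le⟩)
  have k1 : c.r ≤ c.s - e * (c.s - c.r) := by nlinarith
  have k2 : c.s - e * (c.s - c.r) ≤ c.s := by nlinarith
  have hd : 0 < δ / (B + 1) := by positivity
  filter_upwards [slab_sum (hr.trans k1) k2 hs hd, eventually_ge_atTop (1 : ℝ)] with x h1 hx
  have hs0 : 0 ≤ √x := Real.sqrt_nonneg x
  have e1 : ∑ n ∈ II x, ∑ p ∈ sp x n, |c.ph (sz x p) - (c.cut e).ph (sz x p)| ≤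
      B * ∑ n ∈ II x, ∑ p ∈ (sp x n).filter
        (fun p => c.s - e * (c.s - c.r) ≤ sz x p ∧ sz x p < c.s), sz x p := by
    rw [mul_sum]
    refine sum_le_sum fun n _ => ?_
    rw [mul_sum, sum_filter]
    refine sum_le_sum fun p _ => ?_
    have h0 := slab_sz_nonneg hx p
    generalize sz x p = t at h0 ⊢
    simp only [Cell.ph, Cell.cut]
    by_cases a1 : c.s - e * (c.s - c.r) ≤ t ∧ t < c.s
    · rw [if_pos a1, if_pos ⟨k1.trans a1.1, a1.2⟩, if_neg fun a => not_lt.2 a1.1 a.2, sub_zero,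
        abs_mul, abs_of_nonneg h0, mul_comm]
      exact mul_le_mul_of_nonneg_right (hB t ⟨k1.trans a1.1, a1.2.le⟩) h0
    · rw [if_neg a1]
      by_cases a2 : c.r ≤ t ∧ t < c.s
      · rw [if_pos a2, if_pos ⟨a2.1, not_le.1 fun a => a1 ⟨a, a2.2⟩⟩, sub_self, abs_zero]
      · rw [if_neg a2, if_neg fun a => a2 ⟨a.1, a.2.trans_le k2⟩, sub_self, abs_zero]
  refine e1.trans ((mul_le_mul_of_nonneg_left h1 hB0).trans ?_)
  rw [← mul_assoc]
  refine mul_le_mul_of_nonneg_right ?_ hs0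
  have k3 : B * (δ / (B + 1)) ≤ δ := by
    rw [← mul_div_assoc, div_le_iff₀ (by linarith)]
    nlinarith
  have k4 : e * (c.s - c.r) ≤ e := by nlinarith
  nlinarith [mul_le_mul_of_nonneg_left k4 hB0]

end Pool.Agent.Lib.MP_7d48f8_nt
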